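import Pool.Agent.H52.V.S8.H323R2.Gen2
import Pool.Agent.H52.V.S8.H393R2.DC.Main

/-!
Size of the exceptional sets, uniformly in the base (support version).
-/

set_option autoImplicit false

namespace Pool.Agent.H52.CV

open Polynomial Finset
open Pool.Agent.H393R2.DC (n1 S Pol dlt V Dn)
open Pool.Agent.H323R2.Gen (badG Fr rho eval_sub_le rho_degree n1_rho_le rho_dvd)

/-- `|S(M)| ≤ b^M |G(1/b)| + b^{-h-1} n1 G` if there is no exponent in `(M, M+h]` -/
lemma abs_S_le_gap (b : ℕ) (hb : 2 ≤ b) (G : ℤ[X]) (M h : ℕ)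
    (hgap : ∀ n, M < n → n ≤ M + h → G.coeff n = 0) :
    (|S b G M| : ℝ) ≤ (b : ℝ) ^ M * |(G.map (Int.castRingHom ℝ)).eval (1 / (b : ℝ))| +
      (n1 G : ℝ) / (b : ℝ) ^ (h + 1) := by
  have hb0 : (0 : ℝ) < b := by positivity
  have hb1 : (1 : ℝ) ≤ b := by exact_mod_cast (by omega : 1 ≤ b)
  set n := G.natDegree + M + 2 with hn
  have hev : (G.map (Int.castRingHom ℝ)).eval (1 / (b : ℝ)) =
      ∑ i ∈ range n, (G.coeff i : ℝ) * (1 / (b : ℝ)) ^ i := by
    rw [Polynomial.eval_eq_sum_range' (n := n)]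
    · simp
    · calc (G.map (Int.castRingHom ℝ)).natDegree ≤ G.natDegree := Polynomial.natDegree_map_le
        _ < n := by omega
  have hsplit : (b : ℝ) ^ M * (G.map (Int.castRingHom ℝ)).eval (1 / (b : ℝ)) =
      (S b G M : ℝ) + ∑ i ∈ Ico (M + 1) n, (b : ℝ) ^ M * ((G.coeff i : ℝ) * (1 / (b : ℝ)) ^ i) := by
    rw [hev, Finset.mul_sum, ← Finset.sum_range_add_sum_Ico _ (show M + 1 ≤ n by omega)]
    congr 1
    unfold S
    push_cast
    apply Finset.sum_congr rfl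
    intro i hi
    have hi' : i ≤ M := Nat.lt_succ_iff.1 (Finset.mem_range.1 hi)
    have : (b : ℝ) ^ M = (b : ℝ) ^ (M - i) * (b : ℝ) ^ i := by
      rw [← pow_add]; congr 1; omega
    rw [this, one_div, inv_pow]
    have hbi : (b : ℝ) ^ i ≠ 0 := by positivity
    field_simp
  have hS : (S b G M : ℝ) = (b : ℝ) ^ M * (G.map (Int.castRingHom ℝ)).eval (1 / (b : ℝ)) -
      ∑ i ∈ Ico (M + 1) n, (b : ℝ) ^ M * ((G.coeff i : ℝ) * (1 / (b : ℝ)) ^ i) := by
    linarith
  have htail : |∑ i ∈ Ico (M + 1) n, (b : ℝ) ^ M * ((G.coeff i : ℝ) * (1 / (b : ℝ)) ^ i)| ≤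
      (∑ i ∈ Ico (M + 1) n, |(G.coeff i : ℝ)|) / (b : ℝ) ^ (h + 1) := by
    refine (Finset.abs_sum_le_sum_abs _ _).trans ?_
    rw [Finset.sum_div]
    apply Finset.sum_le_sum
    intro i hi
    rw [Finset.mem_Ico] at hi
    by_cases hih : i ≤ M + h
    · rw [hgap i (by omega) hih]
      simp
    · rw [abs_mul, abs_mul, abs_of_pos (pow_pos hb0 M),
        abs_of_pos (show (0:ℝ) < (1 / (b : ℝ)) ^ i by positivity)]
      have h1 : (b : ℝ) ^ M * (1 / (b : ℝ)) ^ i ≤ 1 / (b : ℝ) ^ (h + 1) := by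
        rw [one_div, inv_pow, ← div_eq_mul_inv, div_le_div_iff₀ (by positivity) (by positivity),
          one_mul, ← pow_add]
        exact pow_le_pow_right₀ hb1 (by omega)
      calc (b : ℝ) ^ M * (|(G.coeff i : ℝ)| * (1 / (b : ℝ)) ^ i)
          = |(G.coeff i : ℝ)| * ((b : ℝ) ^ M * (1 / (b : ℝ)) ^ i) := by ring
        _ ≤ |(G.coeff i : ℝ)| * (1 / (b : ℝ) ^ (h + 1)) :=
            mul_le_mul_of_nonneg_left h1 (abs_nonneg _)
        _ = _ := by ring
  have hn1 : ∑ i ∈ Ico (M + 1) n, |(G.coeff i : ℝ)| ≤ (n1 G : ℝ) := by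
    have := Pool.Agent.H393R2.DC.sum_abs_coeff_le G (Ico (M + 1) n)
    exact_mod_cast this
  have h3 : |(S b G M : ℝ)| ≤ (b : ℝ) ^ M * |(G.map (Int.castRingHom ℝ)).eval (1 / (b : ℝ))| +
      (∑ i ∈ Ico (M + 1) n, |(G.coeff i : ℝ)|) / (b : ℝ) ^ (h + 1) := by
    rw [hS]
    refine (abs_sub _ _).trans ?_
    rw [abs_mul, abs_of_pos (pow_pos hb0 M)]
    linarith
  have h4 : (∑ i ∈ Ico (M + 1) n, |(G.coeff i : ℝ)|) / (b : ℝ) ^ (h + 1) ≤
      (n1 G : ℝ) / (b : ℝ) ^ (h + 1) := div_le_div_of_nonneg_right hn1 (by positivity)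
  linarith

lemma card_S_le (b : ℕ) (hb : 2 ≤ b) (G : ℤ[X]) (N h : ℕ)
    (h1 : ∀ M, M + h ≤ N →
      (b : ℝ) ^ M * |(G.map (Int.castRingHom ℝ)).eval (1 / (b : ℝ))| < 1 / 2)
    (h2 : (n1 G : ℝ) / (b : ℝ) ^ (h + 1) < 1 / 2) :
    ((range (N + 1)).filter (fun R => S b G R ≠ 0)).card ≤ h * (1 + G.support.card) := by
  classical
  have hsub : (range (N + 1)).filter (fun R => S b G R ≠ 0) ⊆
      Ico (N + 1 - h) (N + 1) ∪ G.support.biUnion (fun n => Ico (n - h) n) := by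
    intro R hR
    rw [Finset.mem_filter, Finset.mem_range] at hR
    rw [Finset.mem_union, Finset.mem_Ico, Finset.mem_biUnion]
    by_contra hcon
    rw [not_or] at hcon
    obtain ⟨hc1, hc2⟩ := hcon
    have hRh : R + h ≤ N := by omega
    apply hR.2
    have hgap : ∀ n, R < n → n ≤ R + h → G.coeff n = 0 := by
      intro n hn1 hn2
      by_contra hne
      exact hc2 ⟨n, Polynomial.mem_support_iff.2 hne, Finset.mem_Ico.2 ⟨by omega, hn1⟩⟩
    have h3 := abs_S_le_gap b hb G R h hgap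
    have h4 := h1 R hRh
    have h5 : (|S b G R| : ℝ) < 1 := by linarith
    have h6 : |S b G R| < 1 := by exact_mod_cast h5
    exact Int.abs_lt_one_iff.1 h6
  refine (Finset.card_le_card hsub).trans ((Finset.card_union_le _ _).trans ?_)
  have e1 : (Ico (N + 1 - h) (N + 1)).card ≤ h := by
    rw [Nat.card_Ico]; omega
  have e2 : (G.support.biUnion (fun n => Ico (n - h) n)).card ≤ G.support.card * h := by
    apply Finset.card_biUnion_le_card_mul
    intro n _
    rw [Nat.card_Ico]; omega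
  calc _ ≤ h + G.support.card * h := Nat.add_le_add e1 e2
    _ = _ := by ring

lemma card_supp_pow (P : ℤ[X]) (i : ℕ) : (P ^ i).support.card ≤ (1 + P.support.card) ^ i := by
  induction i with
  | zero =>
    rw [pow_zero, pow_zero]
    have : (1 : ℤ[X]).support ⊆ {0} := by
      rw [← Polynomial.C_1]
      exact Polynomial.support_C_subset 1
    exact (Finset.card_le_card this).trans (by simp)
  | succ i ih =>
    rw [pow_succ, pow_succ]
    exact (Polynomial.card_support_mul_le).trans (Nat.mul_le_mul ih (by omega))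

lemma card_supp_comp (F P : ℤ[X]) (D : ℕ) (hdeg : F.natDegree ≤ D) :
    (F.comp P).support.card ≤ (2 * (1 + P.support.card)) ^ D := by
  classical
  have h : F.comp P = ∑ i ∈ range (D + 1), C (F.coeff i) * P ^ i := by
    rw [Polynomial.comp, Polynomial.eval₂_eq_sum_range' _ (lt_of_le_of_lt hdeg (Nat.lt_succ_self D))]
  have hsub : (F.comp P).support ⊆ (range (D + 1)).biUnion (fun i => (P ^ i).support) := by
    intro n hn
    rw [Polynomial.mem_support_iff, h, Polynomial.finsetSum_coeff] at hn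
    obtain ⟨i, hi, hne⟩ := Finset.exists_ne_zero_of_sum_ne_zero hn
    rw [Finset.mem_biUnion]
    refine ⟨i, hi, ?_⟩
    rw [Polynomial.mem_support_iff]
    intro h0
    apply hne
    rw [Polynomial.coeff_C_mul, h0, mul_zero]
  refine (Finset.card_le_card hsub).trans ?_
  refine (Finset.card_biUnion_le_card_mul _ _ ((1 + P.support.card) ^ D) ?_).trans ?_
  · intro i hi
    rw [Finset.mem_range] at hi
    exact (card_supp_pow P i).trans (Nat.pow_le_pow_right (by omega) (by omega))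
  · rw [Finset.card_range, mul_pow]
    exact Nat.mul_le_mul_right _ Nat.lt_two_pow_self

lemma supp_Pol (b : ℕ) (U : ℕ → ℤ) (N : ℕ) : (Pol b U N).support.card ≤ (Dn b U N).card := by
  apply Finset.card_le_card
  intro k hk
  rw [Polynomial.mem_support_iff, Pool.Agent.H393R2.DC.Pol_coeff] at hk
  unfold Dn
  rw [Finset.mem_filter, Finset.mem_range]
  by_cases h : k ≤ N
  · rw [if_pos h] at hk
    exact ⟨by omega, hk⟩
  · rw [if_neg h] at hk
    exact absurd rfl hk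

lemma W_le (b : ℕ) (hb : 2 ≤ b) (t C0 T : ℝ) (hT1 : 1 ≤ T) (hT : |t| + C0 ≤ T)
    (U : ℕ → ℤ) (hU : ∀ K, |(U K : ℝ) - (b : ℝ) ^ K * t| ≤ C0) (N : ℕ) :
    1 + (V b U N : ℝ) ≤ 3 * T * b * (1 + ((Dn b U N).card : ℝ)) := by
  have hC0 : 0 ≤ C0 := (abs_nonneg _).trans (hU 0)
  have hb1 : (2 : ℝ) ≤ b := by exact_mod_cast hb
  have h1 := Pool.Agent.H393R2.DC.V_le_Dn b t C0 U hU N
  refine h1.trans ?_
  apply mul_le_mul_of_nonneg_right _ (by positivity)
  have h2 : |(U 0 : ℝ)| ≤ T := by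
    have h3 := hU 0
    rw [pow_zero, one_mul] at h3
    calc |(U 0 : ℝ)| = |((U 0 : ℝ) - t) + t| := by ring_nf
      _ ≤ |(U 0 : ℝ) - t| + |t| := abs_add_le _ _
      _ ≤ T := by linarith
  have h3 : C0 ≤ T := by have := abs_nonneg t; linarith
  have h4 : (1 + (b : ℝ)) * C0 ≤ (1 + b) * T := mul_le_mul_of_nonneg_left h3 (by positivity)
  nlinarith

lemma cardFU (t C0 T A : ℝ) (hT1 : 1 ≤ T) (hT : |t| + C0 ≤ T) (hA : 1 ≤ A) (K0 : ℕ)
    (hK0 : 12 * A * T * T ≤ K0) (b : ℕ) (hb : 2 ≤ b)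
    (U : ℕ → ℤ) (hU : ∀ K, |(U K : ℝ) - (b : ℝ) ^ K * t| ≤ C0) (N : ℕ) (F : ℤ[X]) (D : ℕ)
    (hdeg : F.natDegree ≤ D) (hn : (n1 F : ℝ) ≤ A ^ D)
    (hF : (F.map (Int.castRingHom ℝ)).eval t = 0) (hD : 1 ≤ D) :
    ((range (N + 1)).filter (fun R => S b (F.comp (Pol b U N)) R ≠ 0)).card ≤
      (8 * K0 * (1 + (Dn b U N).card)) ^ (2 * D) := by
  have hC0 : 0 ≤ C0 := (abs_nonneg _).trans (hU 0)
  have hb1 : (2 : ℝ) ≤ b := by exact_mod_cast hb
  have hb0 : (0 : ℝ) < b := by linarith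
  have hC0T : C0 ≤ T := by have := abs_nonneg t; linarith
  obtain ⟨s, hs⟩ : ∃ s : ℕ, s = (Dn b U N).card := ⟨_, rfl⟩
  obtain ⟨P, hP⟩ : ∃ P : ℤ[X], P = Pol b U N := ⟨_, rfl⟩
  rw [← hs, ← hP]
  set u := (P.map (Int.castRingHom ℝ)).eval (1 / (b : ℝ)) with hu
  have hut : |u - t| ≤ C0 / (b : ℝ) ^ N := by
    rw [hu, hP]; exact Pool.Agent.H393R2.DC.approx_Pol b hb U t C0 hU N
  have hbN : (1 : ℝ) ≤ (b : ℝ) ^ N := one_le_pow₀ (by linarith)
  have hut2 : |u - t| ≤ C0 := hut.trans (div_le_self hC0 hbN)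
  have huT : |u| ≤ T := by
    have : |u| ≤ |u - t| + |t| := by
      calc |u| = |(u - t) + t| := by ring_nf
        _ ≤ _ := abs_add_le _ _
    linarith
  have htT : |t| ≤ T := by linarith
  have hn1 : (n1 P : ℝ) ≤ (V b U N : ℝ) := by
    rw [hP]; exact_mod_cast Pool.Agent.H393R2.DC.n1_Pol_le b U N
  have hn0 : (0 : ℝ) ≤ (n1 P : ℝ) := by exact_mod_cast Pool.Agent.H393R2.DC.n1_nonneg P
  have hF0 : (0 : ℝ) ≤ (n1 F : ℝ) := by exact_mod_cast Pool.Agent.H393R2.DC.n1_nonneg F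
  have hW := W_le b hb t C0 T hT1 hT U hU N
  rw [← hs] at hW
  obtain ⟨Y, hY⟩ : ∃ Y : ℝ, Y = 1 + (s : ℝ) := ⟨_, rfl⟩
  rw [← hY] at hW
  have hY1 : 1 ≤ Y := by rw [hY]; have : (0 : ℝ) ≤ s := Nat.cast_nonneg _; linarith
  -- the length `L`
  obtain ⟨L, hL⟩ : ∃ L : ℕ, L = K0 * (1 + s) := ⟨_, rfl⟩
  have hLR : 12 * A * T * T * Y ≤ L := by
    rw [hL, hY]; push_cast
    exact mul_le_mul_of_nonneg_right hK0 (by positivity)
  have h2L : 12 * A * T * T * Y ≤ 2 ^ L := by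
    refine hLR.trans ?_
    have : L ≤ 2 ^ L := Nat.lt_two_pow_self.le
    exact_mod_cast this
  have hA0 : 0 < A := by linarith
  have hT0 : 0 < T := by linarith
  have hY0 : 0 < Y := by linarith
  have hpow : (12 * A * T * T * Y) ^ D ≤ 2 ^ (D * L) := by
    rw [mul_comm D L, pow_mul]
    exact pow_le_pow_left₀ (by positivity) h2L D
  have hb2 : (2 : ℝ) ^ (D * L) ≤ (b : ℝ) ^ (D * L) := pow_le_pow_left₀ (by norm_num) hb1 _
  have hTD : T ≤ T ^ D := by
    calc T = T ^ 1 := (pow_one _).symm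
      _ ≤ T ^ D := pow_le_pow_right₀ hT1 hD
  obtain ⟨h, hh⟩ : ∃ h : ℕ, h = D + D * L := ⟨_, rfl⟩
  have h12 : (12 : ℝ) ≤ 12 ^ D := by
    calc (12 : ℝ) = 12 ^ 1 := (pow_one _).symm
      _ ≤ 12 ^ D := pow_le_pow_right₀ (by norm_num) hD
  have h4D : (4 : ℝ) ≤ 4 ^ D := by
    calc (4 : ℝ) = 4 ^ 1 := (pow_one _).symm
      _ ≤ 4 ^ D := pow_le_pow_right₀ (by norm_num) hD
  -- coefficients
  have hc2 : (n1 (F.comp P) : ℝ) / (b : ℝ) ^ (h + 1) < 1 / 2 := by
    have e0 : (n1 (F.comp P) : ℝ) ≤ A ^ D * (3 * T * b * Y) ^ D := by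
      have e1 : (n1 (F.comp P) : ℝ) ≤ (n1 F : ℝ) * (1 + (n1 P : ℝ)) ^ F.natDegree := by
        exact_mod_cast Pool.Agent.H393R2.DC.n1_comp_le F P
      refine e1.trans ?_
      apply mul_le_mul hn _ (by positivity) (by positivity)
      have e2 : 1 + (n1 P : ℝ) ≤ 3 * T * b * Y := by linarith
      calc (1 + (n1 P : ℝ)) ^ F.natDegree ≤ (3 * T * b * Y) ^ F.natDegree :=
            pow_le_pow_left₀ (by linarith) e2 _
        _ ≤ _ := pow_le_pow_right₀ (by linarith) hdeg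
    rw [div_lt_iff₀ (by positivity)]
    have e3 : (A ^ D * (3 * T * b * Y) ^ D) * 4 ≤ (b : ℝ) ^ D * (12 * A * T * T * Y) ^ D := by
      calc (A ^ D * (3 * T * b * Y) ^ D) * 4 ≤ (A ^ D * (3 * T * b * Y) ^ D) * 4 ^ D :=
            mul_le_mul_of_nonneg_left h4D (by positivity)
        _ = (b : ℝ) ^ D * (12 * A * T * Y) ^ D := by
            rw [← mul_pow, ← mul_pow, ← mul_pow]; congr 1; ring
        _ ≤ (b : ℝ) ^ D * (12 * A * T * T * Y) ^ D := by
            apply mul_le_mul_of_nonneg_left _ (by positivity)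
            apply pow_le_pow_left₀ (by positivity)
            have : 12 * A * T * Y * 1 ≤ 12 * A * T * Y * T :=
              mul_le_mul_of_nonneg_left hT1 (by positivity)
            linarith
    have e4 : (b : ℝ) ^ D * (12 * A * T * T * Y) ^ D ≤ (b : ℝ) ^ h := by
      rw [hh, pow_add]
      exact mul_le_mul_of_nonneg_left (hpow.trans hb2) (by positivity)
    have e5 : (b : ℝ) ^ h ≤ (b : ℝ) ^ (h + 1) := pow_le_pow_right₀ (by linarith) (by omega)
    have e6 : 0 < (b : ℝ) ^ (h + 1) := by positivity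
    linarith
  have hev : ((F.comp P).map (Int.castRingHom ℝ)).eval (1 / (b : ℝ)) =
      (F.map (Int.castRingHom ℝ)).eval u := by
    rw [Polynomial.map_comp, Polynomial.eval_comp]
  have h2 : |(F.map (Int.castRingHom ℝ)).eval u| ≤ |u - t| * ((n1 F : ℝ) * (D * T ^ D)) := by
    have := eval_sub_le F D hdeg u t T hT1 huT htT
    rw [hF, sub_zero] at this
    exact this
  have hc1 : ∀ M, M + h ≤ N →
      (b : ℝ) ^ M * |((F.comp P).map (Int.castRingHom ℝ)).eval (1 / (b : ℝ))| < 1 / 2 := by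
    intro M hM
    rw [hev]
    have hMN : (b : ℝ) ^ M / (b : ℝ) ^ N ≤ 1 / (b : ℝ) ^ h := by
      rw [div_le_div_iff₀ (by positivity) (by positivity), one_mul, ← pow_add]
      exact pow_le_pow_right₀ (by linarith) hM
    have hD2 : (D : ℝ) ≤ 2 ^ D := by
      have : D ≤ 2 ^ D := Nat.lt_two_pow_self.le
      exact_mod_cast this
    have e1 : (b : ℝ) ^ M * |(F.map (Int.castRingHom ℝ)).eval u| ≤
        (1 / (b : ℝ) ^ h) * (T ^ D * (A ^ D * (2 ^ D * T ^ D))) := by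
      calc (b : ℝ) ^ M * |(F.map (Int.castRingHom ℝ)).eval u|
          ≤ (b : ℝ) ^ M * ((C0 / (b : ℝ) ^ N) * ((n1 F : ℝ) * (D * T ^ D))) := by
            apply mul_le_mul_of_nonneg_left _ (by positivity)
            refine h2.trans ?_
            apply mul_le_mul_of_nonneg_right hut
            positivity
        _ = ((b : ℝ) ^ M / (b : ℝ) ^ N) * (C0 * ((n1 F : ℝ) * (D * T ^ D))) := by ring
        _ ≤ (1 / (b : ℝ) ^ h) * (T ^ D * (A ^ D * (2 ^ D * T ^ D))) := by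
            have e2 : C0 ≤ T ^ D := hC0T.trans hTD
            gcongr
    refine lt_of_le_of_lt e1 ?_
    rw [one_div, ← div_eq_inv_mul, div_lt_iff₀ (by positivity)]
    have e3 : (T ^ D * (A ^ D * (2 ^ D * T ^ D))) * 4 ≤ (12 * A * T * T * Y) ^ D := by
      calc (T ^ D * (A ^ D * (2 ^ D * T ^ D))) * 4 ≤ (T ^ D * (A ^ D * (2 ^ D * T ^ D))) * 4 ^ D :=
            mul_le_mul_of_nonneg_left h4D (by positivity)
        _ = (8 * A * T * T) ^ D := by
            rw [← mul_pow, ← mul_pow, ← mul_pow, ← mul_pow]; congr 1; ring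
        _ ≤ (12 * A * T * T * Y) ^ D := by
            apply pow_le_pow_left₀ (by positivity)
            have e5 : 0 < A * T * T := by positivity
            have e6 : A * T * T * 1 ≤ A * T * T * Y := mul_le_mul_of_nonneg_left hY1 e5.le
            nlinarith
    have e4 : (12 * A * T * T * Y) ^ D ≤ (b : ℝ) ^ h := by
      rw [hh, pow_add]
      calc (12 * A * T * T * Y) ^ D ≤ (b : ℝ) ^ (D * L) := hpow.trans hb2
        _ ≤ (b : ℝ) ^ D * (b : ℝ) ^ (D * L) :=
            le_mul_of_one_le_left (by positivity) (one_le_pow₀ (by linarith))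
    have e6 : 0 < (b : ℝ) ^ h := by positivity
    linarith
  have hfin := card_S_le b hb (F.comp P) N h hc1 hc2
  refine hfin.trans ?_
  have hsupp : (F.comp P).support.card ≤ (2 * (1 + s)) ^ D := by
    refine (card_supp_comp F P D hdeg).trans ?_
    apply Nat.pow_le_pow_left
    have := supp_Pol b U N
    rw [← hP, ← hs] at this
    omega
  have hK12 : 12 ≤ K0 := by
    have h3 : (12 : ℝ) ≤ K0 := by
      refine le_trans ?_ hK0
      have h4 : 1 ≤ A * T * T := by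
        have : 1 ≤ A * T := one_le_mul_of_one_le_of_one_le hA hT1
        exact one_le_mul_of_one_le_of_one_le this hT1
      nlinarith
    exact_mod_cast h3
  have hL12 : 12 ≤ L := by
    rw [hL]
    calc 12 = 12 * 1 := by norm_num
      _ ≤ K0 * (1 + s) := Nat.mul_le_mul hK12 (by omega)
  have hLD : L ≤ L ^ D := Nat.le_self_pow (by omega) _
  have h2s : 2 * (1 + s) ≤ L := by
    rw [hL]; exact Nat.mul_le_mul_right _ (by omega)
  have hDD : D ≤ 2 ^ D := Nat.lt_two_pow_self.le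
  have h64 : 4 ≤ 4 ^ D := Nat.le_self_pow (by omega) _
  calc h * (1 + (F.comp P).support.card) ≤ (D * (2 * L)) * (2 * L ^ D) := by
        apply Nat.mul_le_mul
        · rw [hh]
          calc D + D * L = D * (1 + L) := by ring
            _ ≤ D * (2 * L) := Nat.mul_le_mul_left _ (by omega)
        · have e1 : (2 * (1 + s)) ^ D ≤ L ^ D := Nat.pow_le_pow_left h2s D
          have e2 : 1 ≤ L ^ D := Nat.one_le_pow _ _ (by omega)
          omega
    _ = D * 4 * (L * L ^ D) := by ring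
    _ ≤ 2 ^ D * 4 ^ D * (L ^ D * L ^ D) := by gcongr
    _ = 8 ^ D * L ^ (2 * D) := by
        rw [← mul_pow, show 2 * D = D + D by ring, pow_add, show 2 * 4 = 8 by norm_num]
    _ ≤ 8 ^ (2 * D) * L ^ (2 * D) := by
        apply Nat.mul_le_mul_right
        exact Nat.pow_le_pow_right (by norm_num) (by omega)
    _ = (8 * K0 * (1 + s)) ^ (2 * D) := by
        rw [← mul_pow, hL]; congr 1; ring

theorem badG_cardU (f : ℤ[X]) (hf : f.Monic) (d : ℕ) (hd : f.natDegree = d) (hd1 : 1 ≤ d)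
    (t C0 : ℝ) (hC0 : 0 ≤ C0) (ht : (f.map (Int.castRingHom ℝ)).eval t = 0) :
    ∃ C : ℕ, 1 ≤ C ∧ ∀ (b : ℕ), 2 ≤ b → ∀ (U : ℕ → ℤ),
      (∀ K, |(U K : ℝ) - (b : ℝ) ^ K * t| ≤ C0) → ∀ N q : ℕ, 1 ≤ q →
      (badG f d b (Pol b U N) q N).card ≤ (C * (1 + (Dn b U N).card)) ^ (2 * d * q) ∧
      ((range (N + 1)).filter (fun R => S b (f.comp (Pol b U N)) R ≠ 0)).card ≤
        (C * (1 + (Dn b U N).card)) ^ (2 * d * q) := by
  have hf0 : (0 : ℝ) ≤ (n1 f : ℝ) := by exact_mod_cast Pool.Agent.H393R2.DC.n1_nonneg f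
  set A : ℝ := 2 * (1 + (n1 f : ℝ)) with hA
  set T : ℝ := 1 + |t| + C0 with hT
  have hA1 : 1 ≤ A := by linarith
  have hT1 : 1 ≤ T := by have := abs_nonneg t; linarith
  have hTt : |t| + C0 ≤ T := by linarith
  obtain ⟨K0, hK0⟩ : ∃ K0 : ℕ, 12 * A * T * T ≤ K0 := exists_nat_ge _
  have hK12 : 12 ≤ K0 := by
    have h3 : (12 : ℝ) ≤ K0 := by
      refine le_trans ?_ hK0
      have h4 : 1 ≤ A * T * T := by
        have : 1 ≤ A * T := one_le_mul_of_one_le_of_one_le hA1 hT1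
        exact one_le_mul_of_one_le_of_one_le this hT1
      nlinarith
    exact_mod_cast h3
  refine ⟨d * (8 * K0), Nat.mul_pos hd1 (by omega), fun b hb U hU N q hq => ?_⟩
  obtain ⟨s, hs⟩ : ∃ s : ℕ, s = (Dn b U N).card := ⟨_, rfl⟩
  rw [← hs]
  have hdq : 1 ≤ d * q := Nat.mul_pos hd1 hq
  have hddq : d ≤ d * q := Nat.le_mul_of_pos_right _ hq
  have hAD : A ^ (d * q) = 2 ^ (d * q) * (1 + (n1 f : ℝ)) ^ (d * q) := by
    rw [hA, mul_pow]
  have h2D : (2 : ℝ) ≤ 2 ^ (d * q) := by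
    calc (2 : ℝ) = 2 ^ 1 := (pow_one _).symm
      _ ≤ 2 ^ (d * q) := pow_le_pow_right₀ (by norm_num) hdq
  have hB1 : 1 ≤ (1 + (n1 f : ℝ)) ^ (d * q) := one_le_pow₀ (by linarith)
  have hassoc : 2 * d * q = 2 * (d * q) := by ring
  constructor
  · unfold badG
    have hcard : ∀ i ∈ range d, ((range (N + 1)).filter
        (fun R => S b ((Fr f d (i * q)).comp (Pol b U N)) R ≠ 0)).card ≤
        (8 * K0 * (1 + s)) ^ (2 * (d * q)) := by
      intro i hi
      rw [Finset.mem_range] at hi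
      have hiq : i * q ≤ d * q := Nat.mul_le_mul_right _ hi.le
      rw [hs]
      refine cardFU t C0 T A hT1 hTt hA1 K0 hK0 b hb U hU N _ (d * q) ?_ ?_ ?_ hdq
      · unfold Fr
        refine (Polynomial.natDegree_sub_le _ _).trans (max_le ?_ ?_)
        · rw [Polynomial.natDegree_X_pow]; exact hiq
        · exact (rho_degree f hf d hd hd1 _).le.trans hddq
      · have e1 : n1 (Fr f d (i * q)) ≤ 1 + (1 + n1 f) ^ (i * q) := by
          unfold Fr
          refine (Pool.Agent.H393R2.DC.n1_sub_le _ _).trans ?_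
          apply add_le_add _ (n1_rho_le _ _ _)
          rw [← Polynomial.monomial_one_right_eq_X_pow, Pool.Agent.H393R2.DC.n1_monomial]
          simp
        have e2 : (n1 (Fr f d (i * q)) : ℝ) ≤ 1 + (1 + (n1 f : ℝ)) ^ (i * q) := by
          exact_mod_cast e1
        have e3 : (1 + (n1 f : ℝ)) ^ (i * q) ≤ (1 + (n1 f : ℝ)) ^ (d * q) :=
          pow_le_pow_right₀ (by linarith) hiq
        rw [hAD]
        nlinarith
      · obtain ⟨h, hh⟩ := rho_dvd f d (i * q)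
        unfold Fr
        rw [hh, Polynomial.map_mul, Polynomial.eval_mul, ht, zero_mul]
    calc ((range d).biUnion fun i => (range (N + 1)).filter
        (fun R => S b ((Fr f d (i * q)).comp (Pol b U N)) R ≠ 0)).card
        ≤ (range d).card * (8 * K0 * (1 + s)) ^ (2 * (d * q)) :=
          Finset.card_biUnion_le_card_mul _ _ _ hcard
      _ = d * (8 * K0 * (1 + s)) ^ (2 * (d * q)) := by rw [Finset.card_range]
      _ ≤ d ^ (2 * (d * q)) * (8 * K0 * (1 + s)) ^ (2 * (d * q)) := by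
          apply Nat.mul_le_mul_right
          exact Nat.le_self_pow (by omega) _
      _ = (d * (8 * K0) * (1 + s)) ^ (2 * d * q) := by
          rw [← mul_pow, hassoc, mul_assoc d (8 * K0)]
  · have h1 := cardFU t C0 T A hT1 hTt hA1 K0 hK0 b hb U hU N f (d * q) (by rw [hd]; exact hddq) (by
      rw [hAD]
      have e1 : (1 + (n1 f : ℝ)) ≤ (1 + (n1 f : ℝ)) ^ (d * q) := by
        calc (1 + (n1 f : ℝ)) = (1 + (n1 f : ℝ)) ^ 1 := (pow_one _).symm
          _ ≤ _ := pow_le_pow_right₀ (by linarith) hdq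
      nlinarith) ht hdq
    refine h1.trans ?_
    rw [hassoc, ← hs]
    apply Nat.pow_le_pow_left
    apply Nat.mul_le_mul_right
    exact Nat.le_mul_of_pos_left _ hd1

end Pool.Agent.H52.CV
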