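import Pool.Agent.H52.V.S8.TH842.A3.Asym5
import Pool.Agent.H52.CV.Bad

/-!
# Asymptotic assembly, uniformly in the block length
(edited copy of the library proof `TH842/A3/Asym5.lean`)
-/

set_option autoImplicit false

namespace Pool.Agent.H52.CV

open Finset Polynomial Filter Topology
open Pool.Agent.H393R2.DC (S Pol V Dn digit)
open Pool.Agent.H323R2.Gen (badG NR vv)
open Pool.Agent.TH698.A3
open Pool.Agent.TH842.A3

/-- the growth statement, uniformly in the block length `W` (base `b ^ W`) -/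
theorem asymU (f : ℤ[X]) (hf : f.Monic) (d : ℕ) (hd : f.natDegree = d) (hd2 : 2 ≤ d)
    (b : ℕ) (hb : 2 ≤ b) (t C0 : ℝ) (hC0 : 0 ≤ C0) (ht : (f.map (Int.castRingHom ℝ)).eval t = 0)
    (hsup : ∃ c : ℝ, 0 < c ∧ ∃ Q0 : ℕ, ∀ Q : ℕ, Q0 ≤ Q →
      c * Q / Real.log Q ≤ ((NR f b Q).card : ℝ))
    (c g F : ℕ) (hF : 1 ≤ F) (hSP : ∀ (B : ℕ) (U : ℕ → ℤ), SP5 f d B U c g F)
    (hW : WalkPow F) :
    ∃ c3 : ℝ, 0 < c3 ∧ ∃ N0 : ℕ, ∀ N : ℕ, N0 ≤ N → ∀ W : ℕ, 1 ≤ W → ∀ U : ℕ → ℤ,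
      (∀ K, |(U K : ℝ) - ((b ^ W : ℕ) : ℝ) ^ K * t| ≤ C0) →
      c3 * (Real.log N) ^ 3 / (Real.log (Real.log N)) ^ 5 ≤ ((Dn (b ^ W) U N).card : ℝ) := by
  classical
  obtain ⟨C, hC1, hC⟩ := badG_cardU f hf d hd (by omega) t C0 hC0 ht
  obtain ⟨c1, hc1, Q0, hQ0⟩ := hsup
  obtain ⟨Q1, hQ1⟩ := sqrt_few hc1
  obtain ⟨P, hP⟩ : ∃ P : ℕ, P = 16 * g + 1 := ⟨_, rfl⟩
  obtain ⟨κn, hκn⟩ : ∃ κn : ℕ, κn = 2 * g + 13 := ⟨_, rfl⟩
  obtain ⟨κ, hκ⟩ : ∃ κ : ℝ, κ = (κn : ℝ) := ⟨_, rfl⟩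
  have hκ13 : 13 ≤ κ := by
    rw [hκ]
    exact_mod_cast (by omega : 13 ≤ κn)
  have hκ0 : 0 < κ := by linarith
  obtain ⟨c0, hc0⟩ : ∃ c0 : ℝ, c0 = 4 * ((2 * d : ℕ) : ℝ) * κ * F * (g + 1) := ⟨_, rfl⟩
  have hdR : (2 : ℝ) ≤ ((2 * d : ℕ) : ℝ) := by exact_mod_cast (by omega : 2 ≤ 2 * d)
  have hFR : (1 : ℝ) ≤ F := by exact_mod_cast hF
  have hgR : (0 : ℝ) ≤ g := Nat.cast_nonneg _
  have hc02 : 2 ≤ c0 := by rw [hc0]; exact c0_ge hdR hκ13 hFR hgR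
  have hc00 : 0 < c0 := by linarith
  obtain ⟨M, hM⟩ : ∃ M : ℕ, M = F * (g * P + g) + 4 * g + 24 := ⟨_, rfl⟩
  obtain ⟨B, hB⟩ : ∃ B : ℕ, B = Q0 + Q1 + c * c + 2 * (c * P) + 10 := ⟨_, rfl⟩
  obtain ⟨X, hX⟩ := ev_cond κ (2 * c0) (8 * F) C (B + c) hκ0 (by positivity) M
  obtain ⟨N1, hN1⟩ := eventually_atTop.1
    ((Real.tendsto_log_atTop.comp (tendsto_natCast_atTop_atTop (R := ℝ))).eventually_ge_atTop X)
  have hP0 : (0 : ℝ) < P := by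
    have : 0 < P := by omega
    exact_mod_cast this
  obtain ⟨c3, hc3⟩ : ∃ c3 : ℝ, c3 = c1 / 2 / (2 * c0) / (4 * c0) / (2 * c0) /
    ((c + 1) * P * P * (5 * 4)) := ⟨_, rfl⟩
  have hc30 : 0 < c3 := by rw [hc3]; positivity
  refine ⟨min 1 c3, lt_min one_pos hc30, max N1 1, fun N hN Wd hWd U hU => ?_⟩
  obtain ⟨bW, hbW⟩ : ∃ bW : ℕ, bW = b ^ Wd := ⟨_, rfl⟩
  have hbW2 : 2 ≤ bW := by
    rw [hbW]
    calc 2 ≤ b := hb
      _ = b ^ 1 := (pow_one b).symm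
      _ ≤ b ^ Wd := Nat.pow_le_pow_right (by omega) hWd
  rw [← hbW] at hU ⊢
  have hNX : X ≤ Real.log N := hN1 N (le_trans (le_max_left _ _) hN)
  have hNpos : 1 ≤ N := le_trans (le_max_right _ _) hN
  obtain ⟨x, hx⟩ : ∃ x : ℝ, x = Real.log N := ⟨_, rfl⟩
  rw [← hx] at hNX ⊢
  obtain ⟨e1, e2, e3, e4, e5, e6, e7, e8, e9⟩ := hX _ hNX
  obtain ⟨lam, hlam⟩ : ∃ lam : ℝ, lam = Real.log x := ⟨_, rfl⟩
  rw [← hlam] at e3 e4 e7 e8 e9 ⊢
  obtain ⟨y, hy⟩ : ∃ y : ℝ, y = Real.exp (x / κ) := ⟨_, rfl⟩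
  rw [← hy] at e1 e5
  obtain ⟨m, hm⟩ : ∃ m : ℕ, m = (Dn bW U N).card := ⟨_, rfl⟩
  rw [← hm]
  have hx1 : 1 ≤ x := by linarith
  have hx0 : 0 < x := by linarith
  have hlam0 : 0 < lam := by linarith
  have hm0 : (0 : ℝ) ≤ m := Nat.cast_nonneg _
  have hlam5 : 1 ≤ lam ^ 5 := one_le_pow₀ e3
  by_cases hcase : x ^ 3 ≤ (m : ℝ)
  · rw [div_le_iff₀ (by positivity)]
    calc min 1 c3 * x ^ 3 ≤ 1 * x ^ 3 :=
          mul_le_mul_of_nonneg_right (min_le_left _ _) (by positivity)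
      _ ≤ (m : ℝ) := by linarith
      _ ≤ (m : ℝ) * lam ^ 5 := le_mul_of_one_le_right hm0 hlam5
  push Not at hcase
  have hNy : (N : ℝ) = y ^ κn := by
    rw [hy, ← Real.exp_nat_mul]
    have : (κn : ℝ) * (x / κ) = x := by
      rw [← hκ]
      field_simp
    rw [this, hx, Real.exp_log (by exact_mod_cast hNpos)]
  obtain ⟨Q, ℓ, e, Z, q1, q2, q3, q4, q5, q6, q7, q8, q9, q10, q11⟩ :=
    params (2 * d) c g F P M B κn N m κ c0 x lam y (by omega) hF hP hκn hκ hc0 hM (by omega)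
      (by rw [hlam]; exact Real.exp_log hx0) hy hNy e1 e3 e4 e5 e6 e7 e8 e9 hcase
  -- bound for the exceptional sets
  have hbase : ((C * (1 + m) : ℕ) : ℝ) ≤ x ^ 4 := by
    push_cast
    calc (C : ℝ) * (1 + (m : ℝ)) ≤ C * (1 + x ^ 3) := by
          apply mul_le_mul_of_nonneg_left _ (Nat.cast_nonneg _)
          linarith
      _ ≤ x ^ 4 := e2
  have hx41 : 1 ≤ x ^ 4 := one_le_pow₀ hx1
  have hcardbad : ∀ q : ℕ, q ≤ Q → 1 ≤ q → (badG f d bW (Pol bW U N) q N).card ≤ e := by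
    intro q hqQ hq1
    apply q5
    have h1 := (hC bW hbW2 U hU N q hq1).1
    rw [← hm] at h1
    calc ((badG f d bW (Pol bW U N) q N).card : ℝ) ≤ (((C * (1 + m)) ^ (2 * d * q) : ℕ) : ℝ) := by
          exact_mod_cast h1
      _ = ((C * (1 + m) : ℕ) : ℝ) ^ (2 * d * q) := by push_cast; rfl
      _ ≤ (x ^ 4) ^ (2 * d * q) := pow_le_pow_left₀ (Nat.cast_nonneg _) hbase _
      _ ≤ (x ^ 4) ^ (2 * d * Q) := pow_le_pow_right₀ hx41 (Nat.mul_le_mul_left _ hqQ)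
      _ ≤ y := q4
  have hcardbad2 :
      ((range (N + 1)).filter (fun R => S bW (f.comp (Pol bW U N)) R ≠ 0)).card ≤ e := by
    apply q5
    have h1 := (hC bW hbW2 U hU N 1 le_rfl).2
    rw [← hm] at h1
    calc _ ≤ (((C * (1 + m)) ^ (2 * d * 1) : ℕ) : ℝ) := by exact_mod_cast h1
      _ = ((C * (1 + m) : ℕ) : ℝ) ^ (2 * d * 1) := by push_cast; rfl
      _ ≤ (x ^ 4) ^ (2 * d * 1) := pow_le_pow_left₀ (Nat.cast_nonneg _) hbase _
      _ ≤ (x ^ 4) ^ (2 * d * Q) := pow_le_pow_right₀ hx41 (Nat.mul_le_mul_left _ (by omega))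
      _ ≤ y := q4
  -- the primes
  obtain ⟨QQ, hQQ⟩ : ∃ QQ : Finset ℕ, QQ = (NR f b Q).filter (fun q => Q ≤ q * q) := ⟨_, rfl⟩
  have hmemQQ : ∀ q, q ∈ QQ ↔ q ∈ NR f b Q ∧ Q ≤ q * q := by
    intro q
    rw [hQQ, Finset.mem_filter]
  have hQQcard : c1 / 2 * Q / Real.log Q ≤ (QQ.card : ℝ) := by
    have h1 := hQ0 Q (by omega)
    have h2 := hQ1 Q (by omega)
    have h3 : (NR f b Q).card ≤ QQ.card + (Nat.sqrt Q + 1) := by
      have h4 : NR f b Q ⊆ QQ ∪ range (Nat.sqrt Q + 1) := by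
        intro q hq
        rw [Finset.mem_union]
        by_cases h : Q ≤ q * q
        · exact Or.inl ((hmemQQ q).2 ⟨hq, h⟩)
        · right
          rw [Finset.mem_range, Nat.lt_succ_iff, Nat.le_sqrt]
          omega
      refine (Finset.card_le_card h4).trans ((Finset.card_union_le _ _).trans ?_)
      rw [Finset.card_range]
    have h3' : ((NR f b Q).card : ℝ) ≤ QQ.card + (Nat.sqrt Q + 1) := by exact_mod_cast h3
    have h5 : c1 * Q / Real.log Q = c1 / 2 * Q / Real.log Q + c1 / 2 * Q / Real.log Q := by ring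
    linarith
  have hQQq : ∀ q ∈ QQ, c ≤ q := by
    intro q hq
    have hqq := ((hmemQQ q).1 hq).2
    by_contra hlt
    push Not at hlt
    have : q * q ≤ c * c := Nat.mul_le_mul hlt.le hlt.le
    omega
  have hQQmem : ∀ q ∈ QQ, q.Prime ∧ q ≤ Q ∧ c ≤ q ∧ (bW : ZMod q) ≠ 0 ∧
      ∀ a : ZMod q, (f.map (Int.castRingHom (ZMod q))).eval a ≠ 0 := by
    intro q hq
    have h1 := ((hmemQQ q).1 hq).1
    unfold NR at h1
    rw [Finset.mem_filter, Finset.mem_range] at h1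
    have : Fact q.Prime := ⟨h1.2.1⟩
    refine ⟨h1.2.1, by omega, hQQq q hq, ?_, h1.2.2.2⟩
    rw [hbW]
    push_cast
    exact pow_ne_zero _ h1.2.2.1
  have hfin := finite5 (hSP bW U) hW N Q Q P e Z ℓ QQ hQQmem
    (fun q hq => hcardbad q (hQQmem q hq).2.1 (hQQmem q hq).1.one_lt.le)
    hcardbad2
    (fun q hq => by
      rw [← hm]
      exact q11 q (hQQmem q hq).1.one_lt.le ((hmemQQ q).1 hq).2 (hQQq q hq))
    (by rw [← hm]; exact q10) q9 (by rw [← hm]; exact q7)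
  rw [← hm] at hfin
  -- conclusion
  have hfinR : (QQ.card : ℝ) * ((Q : ℝ) / 2) * Q ≤ c * P * P * (5 * ℓ * m) := by
    have hcPQ : c * P ≤ Q := by omega
    have h1 : ((QQ.card * (Q - c * P) * Q : ℕ) : ℝ) ≤ ((c * P * P * (5 * ℓ * m) : ℕ) : ℝ) :=
      Nat.cast_le.2 hfin
    rw [Nat.cast_mul, Nat.cast_mul, Nat.cast_sub hcPQ] at h1
    push_cast at h1
    have h2 : 2 * ((c : ℝ) * P) ≤ Q := by exact_mod_cast (by omega : 2 * (c * P) ≤ Q)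
    exact L5 (Nat.cast_nonneg _) h2 (Nat.cast_nonneg _) h1
  have hQ1r : (1 : ℝ) < Q := by exact_mod_cast (by omega : 1 < Q)
  have hlogQ : Real.log Q ≤ lam := by rw [hlam]; exact Real.log_le_log (by linarith) q3
  have hlogQ0 : 0 < Real.log Q := Real.log_pos hQ1r
  have hr : c1 / 2 * (x / (2 * c0 * lam)) / lam ≤ (QQ.card : ℝ) := by
    refine le_trans ?_ hQQcard
    apply div_le_div₀ (by positivity) _ hlogQ0 hlogQ
    exact mul_le_mul_of_nonneg_left q2 (by positivity)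
  have hfin2 : c3 * x ^ 3 / lam ^ 5 ≤ (m : ℝ) :=
    final5 hc1 hc00 hx0 hlam0 (Nat.cast_nonneg _) hP0 hm0 (Nat.cast_nonneg _) hc3 hr q2 q6 hfinR
  refine le_trans ?_ hfin2
  apply div_le_div_of_nonneg_right _ (by positivity)
  exact mul_le_mul_of_nonneg_right (min_le_right _ _) (by positivity)

end Pool.Agent.H52.CV
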