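import Pool.Agent.H52.CV.Bad

/-!
Size of the exceptional sets, with explicit dependence on all parameters.
-/

set_option autoImplicit false

namespace Pool.Agent.H52.CV

open Polynomial Finset
open Pool.Agent.H393R2.DC (n1 S Pol dlt V Dn)
open Pool.Agent.H323R2.Gen (badG Fr rho eval_sub_le rho_degree n1_rho_le rho_dvd)

lemma cardFV (t C0 T A : ℝ) (hT1 : 1 ≤ T) (hT : |t| + C0 ≤ T) (hA : 1 ≤ A)
    (b : ℕ) (hb : 2 ≤ b) (M0 : ℕ) (hM0 : 12 * A * T * T ≤ (b : ℝ) ^ M0)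
    (U : ℕ → ℤ) (hU : ∀ K, |(U K : ℝ) - (b : ℝ) ^ K * t| ≤ C0) (N : ℕ) (F : ℤ[X]) (D : ℕ)
    (hdeg : F.natDegree ≤ D) (hn : (n1 F : ℝ) ≤ A ^ D)
    (hF : (F.map (Int.castRingHom ℝ)).eval t = 0) (hD : 1 ≤ D) :
    ((range (N + 1)).filter (fun R => S b (F.comp (Pol b U N)) R ≠ 0)).card ≤
      (8 * (1 + M0) * (1 + (Dn b U N).card) ^ 2) ^ D := by
  have hC0 : 0 ≤ C0 := (abs_nonneg _).trans (hU 0)
  have hb1 : (2 : ℝ) ≤ b := by exact_mod_cast hb
  have hb0 : (0 : ℝ) < b := by linarith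
  have hC0T : C0 ≤ T := by have := abs_nonneg t; linarith
  obtain ⟨s, hs⟩ : ∃ s : ℕ, s = (Dn b U N).card := ⟨_, rfl⟩
  obtain ⟨P, hP⟩ : ∃ P : ℤ[X], P = Pol b U N := ⟨_, rfl⟩
  rw [← hs, ← hP]
  set u := (P.map (Int.castRingHom ℝ)).eval (1 / (b : ℝ)) with hu
  have hut : |u - t| ≤ C0 / (b : ℝ) ^ N := by
    rw [hu, hP]; exact Pool.Agent.H393R2.DC.approx_Pol b hb U t C0 hU N
  have hbN : (1 : ℝ) ≤ (b : ℝ) ^ N := one_le_pow₀ (by linarith)
  have hut2 : |u - t| ≤ C0 := hut.trans (div_le_self hC0 hbN)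
  have huT : |u| ≤ T := by
    have : |u| ≤ |u - t| + |t| := by
      calc |u| = |(u - t) + t| := by ring_nf
        _ ≤ _ := abs_add_le _ _
    linarith
  have htT : |t| ≤ T := by linarith
  have hn1 : (n1 P : ℝ) ≤ (V b U N : ℝ) := by
    rw [hP]; exact_mod_cast Pool.Agent.H393R2.DC.n1_Pol_le b U N
  have hn0 : (0 : ℝ) ≤ (n1 P : ℝ) := by exact_mod_cast Pool.Agent.H393R2.DC.n1_nonneg P
  have hF0 : (0 : ℝ) ≤ (n1 F : ℝ) := by exact_mod_cast Pool.Agent.H393R2.DC.n1_nonneg F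
  have hW := W_le b hb t C0 T hT1 hT U hU N
  rw [← hs] at hW
  obtain ⟨Y, hY⟩ : ∃ Y : ℝ, Y = 1 + (s : ℝ) := ⟨_, rfl⟩
  rw [← hY] at hW
  have hY1 : 1 ≤ Y := by rw [hY]; have : (0 : ℝ) ≤ s := Nat.cast_nonneg _; linarith
  -- the length `L`
  obtain ⟨L, hL⟩ : ∃ L : ℕ, L = M0 + s := ⟨_, rfl⟩
  have hA0 : 0 < A := by linarith
  have hT0 : 0 < T := by linarith
  have hY0 : 0 < Y := by linarith
  have hYb : Y ≤ (b : ℝ) ^ s := by
    have h1 : s + 1 ≤ 2 ^ s := Nat.lt_two_pow_self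
    have h2 : ((s : ℝ) + 1) ≤ 2 ^ s := by exact_mod_cast h1
    have h3 : (2 : ℝ) ^ s ≤ (b : ℝ) ^ s := pow_le_pow_left₀ (by norm_num) hb1 _
    rw [hY]; linarith
  have h2L : 12 * A * T * T * Y ≤ (b : ℝ) ^ L := by
    rw [hL, pow_add]
    exact mul_le_mul hM0 hYb (by positivity) (by positivity)
  have hpow : (12 * A * T * T * Y) ^ D ≤ (b : ℝ) ^ (D * L) := by
    rw [mul_comm D L, pow_mul]
    exact pow_le_pow_left₀ (by positivity) h2L D
  have hTD : T ≤ T ^ D := by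
    calc T = T ^ 1 := (pow_one _).symm
      _ ≤ T ^ D := pow_le_pow_right₀ hT1 hD
  obtain ⟨h, hh⟩ : ∃ h : ℕ, h = D + D * L := ⟨_, rfl⟩
  have h12 : (12 : ℝ) ≤ 12 ^ D := by
    calc (12 : ℝ) = 12 ^ 1 := (pow_one _).symm
      _ ≤ 12 ^ D := pow_le_pow_right₀ (by norm_num) hD
  have h4D : (4 : ℝ) ≤ 4 ^ D := by
    calc (4 : ℝ) = 4 ^ 1 := (pow_one _).symm
      _ ≤ 4 ^ D := pow_le_pow_right₀ (by norm_num) hD
  -- coefficients
  have hc2 : (n1 (F.comp P) : ℝ) / (b : ℝ) ^ (h + 1) < 1 / 2 := by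
    have e0 : (n1 (F.comp P) : ℝ) ≤ A ^ D * (3 * T * b * Y) ^ D := by
      have e1 : (n1 (F.comp P) : ℝ) ≤ (n1 F : ℝ) * (1 + (n1 P : ℝ)) ^ F.natDegree := by
        exact_mod_cast Pool.Agent.H393R2.DC.n1_comp_le F P
      refine e1.trans ?_
      apply mul_le_mul hn _ (by positivity) (by positivity)
      have e2 : 1 + (n1 P : ℝ) ≤ 3 * T * b * Y := by linarith
      calc (1 + (n1 P : ℝ)) ^ F.natDegree ≤ (3 * T * b * Y) ^ F.natDegree :=
            pow_le_pow_left₀ (by linarith) e2 _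
        _ ≤ _ := pow_le_pow_right₀ (by linarith) hdeg
    rw [div_lt_iff₀ (by positivity)]
    have e3 : (A ^ D * (3 * T * b * Y) ^ D) * 4 ≤ (b : ℝ) ^ D * (12 * A * T * T * Y) ^ D := by
      calc (A ^ D * (3 * T * b * Y) ^ D) * 4 ≤ (A ^ D * (3 * T * b * Y) ^ D) * 4 ^ D :=
            mul_le_mul_of_nonneg_left h4D (by positivity)
        _ = (b : ℝ) ^ D * (12 * A * T * Y) ^ D := by
            rw [← mul_pow, ← mul_pow, ← mul_pow]; congr 1; ring
        _ ≤ (b : ℝ) ^ D * (12 * A * T * T * Y) ^ D := by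
            apply mul_le_mul_of_nonneg_left _ (by positivity)
            apply pow_le_pow_left₀ (by positivity)
            have : 12 * A * T * Y * 1 ≤ 12 * A * T * Y * T :=
              mul_le_mul_of_nonneg_left hT1 (by positivity)
            linarith
    have e4 : (b : ℝ) ^ D * (12 * A * T * T * Y) ^ D ≤ (b : ℝ) ^ h := by
      rw [hh, pow_add]
      exact mul_le_mul_of_nonneg_left (hpow) (by positivity)
    have e5 : (b : ℝ) ^ h ≤ (b : ℝ) ^ (h + 1) := pow_le_pow_right₀ (by linarith) (by omega)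
    have e6 : 0 < (b : ℝ) ^ (h + 1) := by positivity
    linarith
  have hev : ((F.comp P).map (Int.castRingHom ℝ)).eval (1 / (b : ℝ)) =
      (F.map (Int.castRingHom ℝ)).eval u := by
    rw [Polynomial.map_comp, Polynomial.eval_comp]
  have h2 : |(F.map (Int.castRingHom ℝ)).eval u| ≤ |u - t| * ((n1 F : ℝ) * (D * T ^ D)) := by
    have := eval_sub_le F D hdeg u t T hT1 huT htT
    rw [hF, sub_zero] at this
    exact this
  have hc1 : ∀ M, M + h ≤ N →
      (b : ℝ) ^ M * |((F.comp P).map (Int.castRingHom ℝ)).eval (1 / (b : ℝ))| < 1 / 2 := by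
    intro M hM
    rw [hev]
    have hMN : (b : ℝ) ^ M / (b : ℝ) ^ N ≤ 1 / (b : ℝ) ^ h := by
      rw [div_le_div_iff₀ (by positivity) (by positivity), one_mul, ← pow_add]
      exact pow_le_pow_right₀ (by linarith) hM
    have hD2 : (D : ℝ) ≤ 2 ^ D := by
      have : D ≤ 2 ^ D := Nat.lt_two_pow_self.le
      exact_mod_cast this
    have e1 : (b : ℝ) ^ M * |(F.map (Int.castRingHom ℝ)).eval u| ≤
        (1 / (b : ℝ) ^ h) * (T ^ D * (A ^ D * (2 ^ D * T ^ D))) := by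
      calc (b : ℝ) ^ M * |(F.map (Int.castRingHom ℝ)).eval u|
          ≤ (b : ℝ) ^ M * ((C0 / (b : ℝ) ^ N) * ((n1 F : ℝ) * (D * T ^ D))) := by
            apply mul_le_mul_of_nonneg_left _ (by positivity)
            refine h2.trans ?_
            apply mul_le_mul_of_nonneg_right hut
            positivity
        _ = ((b : ℝ) ^ M / (b : ℝ) ^ N) * (C0 * ((n1 F : ℝ) * (D * T ^ D))) := by ring
        _ ≤ (1 / (b : ℝ) ^ h) * (T ^ D * (A ^ D * (2 ^ D * T ^ D))) := by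
            have e2 : C0 ≤ T ^ D := hC0T.trans hTD
            gcongr
    refine lt_of_le_of_lt e1 ?_
    rw [one_div, ← div_eq_inv_mul, div_lt_iff₀ (by positivity)]
    have e3 : (T ^ D * (A ^ D * (2 ^ D * T ^ D))) * 4 ≤ (12 * A * T * T * Y) ^ D := by
      calc (T ^ D * (A ^ D * (2 ^ D * T ^ D))) * 4 ≤ (T ^ D * (A ^ D * (2 ^ D * T ^ D))) * 4 ^ D :=
            mul_le_mul_of_nonneg_left h4D (by positivity)
        _ = (8 * A * T * T) ^ D := by
            rw [← mul_pow, ← mul_pow, ← mul_pow, ← mul_pow]; congr 1; ring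
        _ ≤ (12 * A * T * T * Y) ^ D := by
            apply pow_le_pow_left₀ (by positivity)
            have e5 : 0 < A * T * T := by positivity
            have e6 : A * T * T * 1 ≤ A * T * T * Y := mul_le_mul_of_nonneg_left hY1 e5.le
            nlinarith
    have e4 : (12 * A * T * T * Y) ^ D ≤ (b : ℝ) ^ h := by
      rw [hh, pow_add]
      calc (12 * A * T * T * Y) ^ D ≤ (b : ℝ) ^ (D * L) := hpow
        _ ≤ (b : ℝ) ^ D * (b : ℝ) ^ (D * L) :=
            le_mul_of_one_le_left (by positivity) (one_le_pow₀ (by linarith))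
    have e6 : 0 < (b : ℝ) ^ h := by positivity
    linarith
  have hfin := card_S_le b hb (F.comp P) N h hc1 hc2
  refine hfin.trans ?_
  have hsupp : (F.comp P).support.card ≤ (2 * (1 + s)) ^ D := by
    refine (card_supp_comp F P D hdeg).trans ?_
    apply Nat.pow_le_pow_left
    have := supp_Pol b U N
    rw [← hP, ← hs] at this
    omega
  have hhle : h ≤ D * ((1 + M0) * (1 + s)) := by
    rw [hh, hL]
    calc D + D * (M0 + s) = D * (1 + M0 + s) := by ring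
      _ ≤ D * ((1 + M0) * (1 + s)) := by
          apply Nat.mul_le_mul_left
          have : (1 + M0) * (1 + s) = 1 + M0 + s + M0 * s := by ring
          omega
  have hDD : D ≤ 2 ^ D := Nat.lt_two_pow_self.le
  have h2D : 2 ≤ 2 ^ D := Nat.le_self_pow (by omega) _
  have hMD : (1 + M0) * (1 + s) ≤ ((1 + M0) * (1 + s)) ^ D := Nat.le_self_pow (by omega) _
  have h1s : 1 ≤ (2 * (1 + s)) ^ D := Nat.one_le_pow _ _ (by omega)
  calc h * (1 + (F.comp P).support.card)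
      ≤ (D * ((1 + M0) * (1 + s))) * (2 * (2 * (1 + s)) ^ D) := by
        apply Nat.mul_le_mul hhle
        omega
    _ ≤ (2 ^ D * ((1 + M0) * (1 + s)) ^ D) * (2 ^ D * (2 * (1 + s)) ^ D) := by gcongr
    _ = (8 * (1 + M0) * (1 + s) ^ 2) ^ D := by
        rw [← mul_pow, ← mul_pow, ← mul_pow]; congr 1; ring

theorem badG_cardV (f : ℤ[X]) (hf : f.Monic) (d : ℕ) (hd : f.natDegree = d) (hd1 : 1 ≤ d)
    (t C0 : ℝ) (hC0 : 0 ≤ C0) (ht : (f.map (Int.castRingHom ℝ)).eval t = 0)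
    (b : ℕ) (hb : 2 ≤ b) (M0 : ℕ)
    (hM0 : 12 * (2 * (1 + (n1 f : ℝ))) * (1 + |t| + C0) * (1 + |t| + C0) ≤ (b : ℝ) ^ M0)
    (U : ℕ → ℤ) (hU : ∀ K, |(U K : ℝ) - (b : ℝ) ^ K * t| ≤ C0) (N q : ℕ) (hq : 1 ≤ q) :
      (badG f d b (Pol b U N) q N).card ≤
        (8 * d * (1 + M0) * (1 + (Dn b U N).card) ^ 2) ^ (d * q) ∧
      ((range (N + 1)).filter (fun R => S b (f.comp (Pol b U N)) R ≠ 0)).card ≤
        (8 * d * (1 + M0) * (1 + (Dn b U N).card) ^ 2) ^ (d * q) := by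
  have hf0 : (0 : ℝ) ≤ (n1 f : ℝ) := by exact_mod_cast Pool.Agent.H393R2.DC.n1_nonneg f
  set A : ℝ := 2 * (1 + (n1 f : ℝ)) with hA
  set T : ℝ := 1 + |t| + C0 with hT
  have hA1 : 1 ≤ A := by linarith
  have hT1 : 1 ≤ T := by have := abs_nonneg t; linarith
  have hTt : |t| + C0 ≤ T := by linarith
  obtain ⟨s, hs⟩ : ∃ s : ℕ, s = (Dn b U N).card := ⟨_, rfl⟩
  rw [← hs]
  have hdq : 1 ≤ d * q := Nat.mul_pos hd1 hq
  have hddq : d ≤ d * q := Nat.le_mul_of_pos_right _ hq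
  have hAD : A ^ (d * q) = 2 ^ (d * q) * (1 + (n1 f : ℝ)) ^ (d * q) := by
    rw [hA, mul_pow]
  have h2D : (2 : ℝ) ≤ 2 ^ (d * q) := by
    calc (2 : ℝ) = 2 ^ 1 := (pow_one _).symm
      _ ≤ 2 ^ (d * q) := pow_le_pow_right₀ (by norm_num) hdq
  have hB1 : 1 ≤ (1 + (n1 f : ℝ)) ^ (d * q) := one_le_pow₀ (by linarith)
  constructor
  · unfold badG
    have hcard : ∀ i ∈ range d, ((range (N + 1)).filter
        (fun R => S b ((Fr f d (i * q)).comp (Pol b U N)) R ≠ 0)).card ≤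
        (8 * (1 + M0) * (1 + s) ^ 2) ^ (d * q) := by
      intro i hi
      rw [Finset.mem_range] at hi
      have hiq : i * q ≤ d * q := Nat.mul_le_mul_right _ hi.le
      rw [hs]
      refine cardFV t C0 T A hT1 hTt hA1 b hb M0 hM0 U hU N _ (d * q) ?_ ?_ ?_ hdq
      · unfold Fr
        refine (Polynomial.natDegree_sub_le _ _).trans (max_le ?_ ?_)
        · rw [Polynomial.natDegree_X_pow]; exact hiq
        · exact (rho_degree f hf d hd hd1 _).le.trans hddq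
      · have e1 : n1 (Fr f d (i * q)) ≤ 1 + (1 + n1 f) ^ (i * q) := by
          unfold Fr
          refine (Pool.Agent.H393R2.DC.n1_sub_le _ _).trans ?_
          apply add_le_add _ (n1_rho_le _ _ _)
          rw [← Polynomial.monomial_one_right_eq_X_pow, Pool.Agent.H393R2.DC.n1_monomial]
          simp
        have e2 : (n1 (Fr f d (i * q)) : ℝ) ≤ 1 + (1 + (n1 f : ℝ)) ^ (i * q) := by
          exact_mod_cast e1
        have e3 : (1 + (n1 f : ℝ)) ^ (i * q) ≤ (1 + (n1 f : ℝ)) ^ (d * q) :=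
          pow_le_pow_right₀ (by linarith) hiq
        rw [hAD]
        nlinarith
      · obtain ⟨h, hh⟩ := rho_dvd f d (i * q)
        unfold Fr
        rw [hh, Polynomial.map_mul, Polynomial.eval_mul, ht, zero_mul]
    calc ((range d).biUnion fun i => (range (N + 1)).filter
        (fun R => S b ((Fr f d (i * q)).comp (Pol b U N)) R ≠ 0)).card
        ≤ (range d).card * (8 * (1 + M0) * (1 + s) ^ 2) ^ (d * q) :=
          Finset.card_biUnion_le_card_mul _ _ _ hcard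
      _ = d * (8 * (1 + M0) * (1 + s) ^ 2) ^ (d * q) := by rw [Finset.card_range]
      _ ≤ d ^ (d * q) * (8 * (1 + M0) * (1 + s) ^ 2) ^ (d * q) := by
          apply Nat.mul_le_mul_right
          exact Nat.le_self_pow (by omega) _
      _ = (8 * d * (1 + M0) * (1 + s) ^ 2) ^ (d * q) := by
          rw [← mul_pow]; congr 1; ring
  · have h1 := cardFV t C0 T A hT1 hTt hA1 b hb M0 hM0 U hU N f (d * q) (by rw [hd]; exact hddq) (by
      rw [hAD]
      have e1 : (1 + (n1 f : ℝ)) ≤ (1 + (n1 f : ℝ)) ^ (d * q) := by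
        calc (1 + (n1 f : ℝ)) = (1 + (n1 f : ℝ)) ^ 1 := (pow_one _).symm
          _ ≤ _ := pow_le_pow_right₀ (by linarith) hdq
      nlinarith) ht hdq
    refine h1.trans ?_
    rw [← hs]
    apply Nat.pow_le_pow_left
    apply Nat.mul_le_mul_right
    apply Nat.mul_le_mul_right
    exact Nat.le_mul_of_pos_right _ hd1

end Pool.Agent.H52.CV
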