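import Pool.Agent.H52.CV.SPU
import Pool.Agent.H52.CV.AsymU
import Pool.Agent.H52.V.S8.TH842.A3.Uni

/-!
# From sequences to expansions: hit blocks, uniformly in the block length
-/

set_option autoImplicit false

namespace Pool.Agent.H52.CV

open Finset Filter Topology Polynomial
open Pool.Agent.H393R2.DC (Dn dlt)
open Pool.Agent.TH842.A3.Out5 (absorb3 absorbJ)
open Pool.Agent.TH842.A3.Uni (Exps exps_of_sum)
open Pool.Agent.W44 (exists_monic shift rel rel_apply rel_mul rel_X_sub rel_C_mul)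

/-- the growth statement for one polynomial, uniformly in the block length -/
theorem mgU (f : ℤ[X]) (hf : f.Monic) (hirr : Irreducible f) (hd2 : 2 ≤ f.natDegree)
    (b : ℕ) (hb : 2 ≤ b) (t C0 : ℝ) (hC0 : 0 ≤ C0)
    (ht : (f.map (Int.castRingHom ℝ)).eval t = 0) :
    ∃ c3 : ℝ, 0 < c3 ∧ ∃ N0 : ℕ, ∀ N : ℕ, N0 ≤ N → ∀ W : ℕ, 1 ≤ W → ∀ U : ℕ → ℤ,
      (∀ K, |(U K : ℝ) - ((b ^ W : ℕ) : ℝ) ^ K * t| ≤ C0) →
      c3 * (Real.log N) ^ 3 / (Real.log (Real.log N)) ^ 5 ≤ ((Dn (b ^ W) U N).card : ℝ) := by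
  obtain ⟨c, g, hSP⟩ := spU f f.natDegree rfl hd2
    (fun b q _ G N R hbq hs hR hbad =>
      Pool.Agent.TH761.A3Frob.s_dil f hf _ rfl hd2 b G q hbq hs N R hR hbad)
    (Pool.Agent.TH761.A3Frob.sep_of_large f hf hirr)
  exact asymU f hf _ rfl hd2 b hb t C0 hC0 ht
    (Pool.Agent.H323R2.NT.supply f hf hirr hd2 b (by omega)) c g _ (Nat.factorial_pos _) hSP
    (Pool.Agent.TH461.A3.walk_pow _ (Nat.factorial_pos _))

open Classical in
/-- the blocks `(W j, W (j + 1)]`, `j < N`, which contain a place `k` with `p k` -/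
noncomputable def hit (p : ℕ → Prop) (W N : ℕ) : Finset ℕ :=
  (range N).filter (fun j => ∃ k, W * j < k ∧ k ≤ W * (j + 1) ∧ p k)

open Classical in
lemma mem_hit (p : ℕ → Prop) (W N j : ℕ) :
    j ∈ hit p W N ↔ j < N ∧ ∃ k, W * j < k ∧ k ≤ W * (j + 1) ∧ p k := by
  unfold hit
  rw [Finset.mem_filter, Finset.mem_range]

lemma hit_mono (p p' : ℕ → Prop) (h : ∀ k, 1 ≤ k → p k → p' k) (W N : ℕ) :
    hit p W N ⊆ hit p' W N := by
  intro j hj
  rw [mem_hit] at hj ⊢
  obtain ⟨h1, k, h2, h3, h4⟩ := hj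
  exact ⟨h1, k, h2, h3, h k (by omega) h4⟩

lemma pow_step (b : ℕ) (Y : ℕ → ℤ) (a W : ℕ)
    (h : ∀ k, a ≤ k → k < a + W → Y (k + 1) = b * Y k) : Y (a + W) = (b : ℤ) ^ W * Y a := by
  have key : ∀ i, i ≤ W → Y (a + i) = (b : ℤ) ^ i * Y a := by
    intro i
    induction i with
    | zero => intro _; simp
    | succ i ih =>
      intro hi
      rw [show a + (i + 1) = a + i + 1 by ring, h (a + i) (by omega) (by omega), ih (by omega),
        pow_succ]
      ring
  exact key W le_rfl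

theorem main_algU (x : ℝ) (halg : IsAlgebraic ℚ x) (hirr : Irrational x) (b : ℕ) (hb : 2 ≤ b)
    (T : ℤ) (hT : T ≠ 0) (C0 : ℝ) (hC0 : 0 ≤ C0) :
    ∃ c : ℝ, 0 < c ∧ ∃ N0 : ℕ, ∀ N : ℕ, N0 ≤ N → ∀ W : ℕ, 1 ≤ W → ∀ Y : ℕ → ℤ,
      (∀ K, |(Y K : ℝ) - (b : ℝ) ^ K * (T * x)| ≤ C0) →
      c * (Real.log N) ^ 3 / (Real.log (Real.log N)) ^ 5 ≤
        ((hit (fun k => ∃ i, k = i + 1 ∧ Y (i + 1) ≠ b * Y i) W N).card : ℝ) := by
  classical
  have halg1 : IsAlgebraic ℚ ((T : ℝ) * x) := by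
    have h1 : IsAlgebraic ℚ ((T : ℝ)) := isAlgebraic_intCast (R := ℚ) (A := ℝ) T
    exact h1.mul halg
  have hirr1 : Irrational ((T : ℝ) * x) := hirr.intCast_mul hT
  obtain ⟨S, hS, f, hm, hfi, hd, hroot⟩ := exists_monic _ halg1 hirr1
  obtain ⟨c, hc, N0, hN0⟩ := mgU f hm hfi hd b hb _ (|(S : ℝ)| * C0) (by positivity) hroot
  obtain ⟨c', hc', N1, hN1⟩ := absorb3 c hc
  refine ⟨c', hc', max N0 N1, fun N hN W hW Y hY => ?_⟩
  set U : ℕ → ℤ := fun n => S * Y (W * n) with hU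
  have hUa : ∀ n, |(U n : ℝ) - ((b ^ W : ℕ) : ℝ) ^ n * (S * (T * x))| ≤ |(S : ℝ)| * C0 := by
    intro n
    have e : (U n : ℝ) - ((b ^ W : ℕ) : ℝ) ^ n * (S * (T * x)) =
        S * ((Y (W * n) : ℝ) - (b : ℝ) ^ (W * n) * (T * x)) := by
      simp only [hU]; push_cast; rw [← pow_mul]; ring
    rw [e, abs_mul]
    exact mul_le_mul_of_nonneg_left (hY (W * n)) (by positivity)
  refine hN1 N (le_trans (le_max_right _ _) hN) _
    ((hN0 N (le_trans (le_max_left _ _) hN) W hW U hUa).trans ?_)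
  have hsub : Dn (b ^ W) U N ⊆
      insert 0 ((hit (fun k => ∃ i, k = i + 1 ∧ Y (i + 1) ≠ b * Y i) W N).image (· + 1)) := by
    intro k hk
    unfold Dn at hk
    rw [Finset.mem_filter, Finset.mem_range] at hk
    rw [Finset.mem_insert]
    cases k with
    | zero => exact Or.inl rfl
    | succ k =>
      right
      rw [Finset.mem_image]
      refine ⟨k, ?_, rfl⟩
      rw [mem_hit]
      refine ⟨by omega, ?_⟩
      by_contra hcon
      push Not at hcon
      apply hk.2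
      simp only [dlt, hU]
      have h1 := pow_step b Y (W * k) W (by
        intro i h1 h2
        have h3 := hcon (i + 1) (by omega) (by
          have : W * (k + 1) = W * k + W := by ring
          omega)
        exact h3 i rfl)
      rw [show W * (k + 1) = W * k + W by ring, h1]
      push_cast
      ring
  have h1 := (Finset.card_le_card hsub).trans (Finset.card_insert_le _ _)
  have h2 := Finset.card_image_le (s := hit (fun k => ∃ i, k = i + 1 ∧ Y (i + 1) ≠ b * Y i) W N)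
    (f := (· + 1))
  have h3 := h1.trans (Nat.add_le_add_right h2 1)
  exact_mod_cast h3

theorem tuple_relationsU {n : ℕ} (α : Fin n → ℝ) (halg : ∀ i, IsAlgebraic ℚ (α i))
    (b : ℕ) (hb : 2 ≤ b) (G : ℤ) (M0 : ℝ) (hM0 : 0 ≤ M0)
    (m : ℕ) (q : Fin n → ℕ → ℤ) (e : ℤ)
    (hirr : Irrational (∑ i, ((∑ j ∈ range (m + 1), q i j * (b : ℤ) ^ j : ℤ) : ℝ) * α i)) :
    ∃ c : ℝ, 0 < c ∧ ∃ N0 : ℕ, ∀ N : ℕ, N0 ≤ N → ∀ Wd : ℕ, 1 ≤ Wd →
      ∀ (g W : Fin n → ℕ → ℤ), Exps b α g W G M0 →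
      c * (Real.log N) ^ 3 / (Real.log (Real.log N)) ^ 5 ≤
        ((hit (fun k : ℕ => ∑ i, ∑ j ∈ range (m + 1), q i j * g i (k + j) ≠ e) Wd N).card : ℝ) := by
  set x : ℝ := ∑ i, ((∑ j ∈ range (m + 1), q i j * (b : ℤ) ^ j : ℤ) : ℝ) * α i with hx
  have hb0 : (0 : ℝ) < b := by positivity
  have hb2 : (2 : ℝ) ≤ b := by exact_mod_cast hb
  have hb1 : (0 : ℝ) ≤ (b : ℝ) - 1 := by linarith
  have hbZ : ((b : ℤ) - 1) ≠ 0 := by
    have : (2 : ℤ) ≤ b := by exact_mod_cast hb
    omega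
  have hxalg : IsAlgebraic ℚ x := by
    rw [hx]
    apply Subalgebra.algebraicClosure ℚ ℝ |>.sum_mem
    intro i _
    have h1 : IsAlgebraic ℚ (((∑ j ∈ range (m + 1), q i j * (b : ℤ) ^ j : ℤ)) : ℝ) :=
      isAlgebraic_intCast (R := ℚ) (A := ℝ) _
    exact h1.mul (halg i)
  set M : ℝ := ((b : ℝ) - 1) * ∑ i, ∑ j ∈ range (m + 1), |(q i j : ℝ)| * M0 + |(e : ℝ)| with hM
  have hMnn : 0 ≤ M := by
    rw [hM]
    have : 0 ≤ ∑ i, ∑ j ∈ range (m + 1), |(q i j : ℝ)| * M0 :=
      Finset.sum_nonneg (fun i _ => Finset.sum_nonneg (fun j _ => by positivity))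
    positivity
  obtain ⟨c, hc, N0, hN0⟩ := main_algU x hxalg hirr b hb ((b : ℤ) - 1) hbZ M hMnn
  refine ⟨c, hc, N0, fun N hN Wd hWd g W hE => ?_⟩
  have hWs : ∀ i k, W i (k + 1) = b * W i k + g i (k + 1) := hE.step
  set Y : ℕ → ℤ := fun k => ((b : ℤ) - 1) * ∑ i, ∑ j ∈ range (m + 1), q i j * W i (k + j) + e
    with hY
  have hYs : ∀ k, Y (k + 1) - b * Y k =
      ((b : ℤ) - 1) * (∑ i, ∑ j ∈ range (m + 1), q i j * g i (k + 1 + j) - e) := by
    intro k
    have h1 : ∑ i, ∑ j ∈ range (m + 1), q i j * W i (k + 1 + j) =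
        b * ∑ i, ∑ j ∈ range (m + 1), q i j * W i (k + j) +
          ∑ i, ∑ j ∈ range (m + 1), q i j * g i (k + 1 + j) := by
      rw [Finset.mul_sum, ← Finset.sum_add_distrib]
      apply Finset.sum_congr rfl
      intro i _
      rw [Finset.mul_sum, ← Finset.sum_add_distrib]
      apply Finset.sum_congr rfl
      intro j _
      have e1 : k + 1 + j = k + j + 1 := by ring
      rw [e1, hWs i (k + j)]
      ring
    simp only [hY]
    rw [h1]
    ring
  have hYa : ∀ k, |(Y k : ℝ) - (b : ℝ) ^ k * ((((b : ℤ) - 1 : ℤ) : ℝ) * x)| ≤ M := by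
    intro k
    have e1 : (Y k : ℝ) - (b : ℝ) ^ k * ((((b : ℤ) - 1 : ℤ) : ℝ) * x) =
        ((b : ℝ) - 1) * ∑ i, ∑ j ∈ range (m + 1), (q i j : ℝ) *
          ((W i (k + j) : ℝ) - (b : ℝ) ^ (k + j) * α i) + e := by
      have e2 : ∑ i, ∑ j ∈ range (m + 1), (q i j : ℝ) *
          ((W i (k + j) : ℝ) - (b : ℝ) ^ (k + j) * α i) =
          ∑ i, ∑ j ∈ range (m + 1), (q i j : ℝ) * (W i (k + j) : ℝ) - (b : ℝ) ^ k * x := by
        rw [hx, Finset.mul_sum, ← Finset.sum_sub_distrib]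
        apply Finset.sum_congr rfl
        intro i _
        push_cast
        rw [Finset.sum_mul, Finset.mul_sum, ← Finset.sum_sub_distrib]
        apply Finset.sum_congr rfl
        intro j _
        rw [pow_add]; ring
      rw [e2]
      simp only [hY]
      push_cast
      ring
    rw [e1]
    refine (abs_add_le _ _).trans ?_
    rw [hM]
    apply add_le_add _ le_rfl
    rw [abs_mul, abs_of_nonneg hb1]
    apply mul_le_mul_of_nonneg_left _ hb1
    refine (Finset.abs_sum_le_sum_abs _ _).trans ?_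
    apply Finset.sum_le_sum
    intro i _
    refine (Finset.abs_sum_le_sum_abs _ _).trans ?_
    apply Finset.sum_le_sum
    intro j _
    rw [abs_mul]
    exact mul_le_mul_of_nonneg_left (hE.app i (k + j)) (abs_nonneg _)
  refine (hN0 N hN Wd hWd Y hYa).trans ?_
  have hsub := hit_mono (fun k => ∃ i, k = i + 1 ∧ Y (i + 1) ≠ b * Y i)
    (fun k : ℕ => ∑ i, ∑ j ∈ range (m + 1), q i j * g i (k + j) ≠ e) (by
      rintro k hk ⟨i, rfl, hi⟩ h0
      apply hi
      have h1 := hYs i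
      rw [h0, sub_self, mul_zero] at h1
      linarith) Wd N
  exact_mod_cast Finset.card_le_card hsub

/-- dividing a relation by `b a_k - a_{k+1}`, pointwise -/
lemma div_stepU (b : ℕ) (hb : 2 ≤ b) (W : ℤ) (e : ℤ) :
    ∃ J : ℕ, ∀ w : ℕ → ℤ, (∀ k, |w k| ≤ W) → ∀ k, ((b : ℤ) - 1) * w k ≠ -e →
      ∃ f, k ≤ f ∧ f < k + J ∧ w (f + 1) - b * w f ≠ e := by
  have hb2 : (2 : ℤ) ≤ b := by exact_mod_cast hb
  set Y : ℤ := ((b : ℤ) - 1) * W + |e| with hY
  obtain ⟨J, hJ⟩ : ∃ J : ℕ, Y < 2 ^ J := by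
    refine ⟨Y.toNat, ?_⟩
    have h1 : Y.toNat < 2 ^ Y.toNat := Nat.lt_two_pow_self
    have h2 : Y ≤ (Y.toNat : ℤ) := Int.self_le_toNat Y
    have h3 : ((Y.toNat : ℕ) : ℤ) < ((2 ^ Y.toNat : ℕ) : ℤ) := by exact_mod_cast h1
    push_cast at h3
    linarith
  refine ⟨J, fun w hw k hk' => ?_⟩
  set y : ℕ → ℤ := fun k => ((b : ℤ) - 1) * w k + e with hy
  have hYb : ∀ k, |y k| ≤ Y := by
    intro k
    simp only [hy, hY]
    refine (abs_add_le _ _).trans ?_
    rw [abs_mul, abs_of_nonneg (by linarith : (0 : ℤ) ≤ (b : ℤ) - 1)]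
    have := mul_le_mul_of_nonneg_left (hw k) (by linarith : (0 : ℤ) ≤ (b : ℤ) - 1)
    linarith
  have hk : y k ≠ 0 := by
    intro h
    apply hk'
    simp only [hy] at h
    linarith
  by_contra hcon
  push Not at hcon
  have hstep : ∀ i, i ≤ J → y (k + i) = (b : ℤ) ^ i * y k := by
    intro i
    induction i with
    | zero => intro _; simp
    | succ i ih =>
      intro hi
      have h1 := ih (by omega)
      have h2 := hcon (k + i) (by omega) (by omega)
      have h3 : w (k + i + 1) = b * w (k + i) + e := by linarith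
      have h4 : y (k + (i + 1)) = b * y (k + i) := by
        simp only [hy]
        rw [show k + (i + 1) = k + i + 1 by ring, h3]
        ring
      rw [h4, h1, pow_succ]
      ring
  have h5 := hstep J le_rfl
  have h6 : (1 : ℤ) ≤ |y k| := Int.one_le_abs hk
  have h7 : (2 : ℤ) ^ J ≤ |y (k + J)| := by
    rw [h5, abs_mul, abs_of_nonneg (by positivity : (0 : ℤ) ≤ (b : ℤ) ^ J)]
    calc (2 : ℤ) ^ J = 2 ^ J * 1 := (mul_one _).symm
      _ ≤ (b : ℤ) ^ J * |y k| := mul_le_mul (pow_le_pow_left₀ (by norm_num) hb2 _) h6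
          (by norm_num) (by positivity)
  have h8 := hYb (k + J)
  linarith

/-- shifting the places by less than `J` -/
lemma hit_shift (p p' : ℕ → Prop) (J : ℕ)
    (h : ∀ k, p k → ∃ f, k ≤ f ∧ f < k + J ∧ p' f) (W N : ℕ) (hW : 1 ≤ W) :
    (hit p W N).card ≤ (J + 1) * ((hit p' W N).card + J) := by
  classical
  have hsub : hit p W N ⊆ (range (J + 1)).biUnion (fun i =>
      (hit p' W (N + J)).image (fun j => j - i)) := by
    intro j hj
    rw [mem_hit] at hj
    obtain ⟨h1, k, h2, h3, h4⟩ := hj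
    obtain ⟨f, h5, h6, h7⟩ := h k h4
    obtain ⟨j', hj'⟩ : ∃ j', j' = (f - 1) / W := ⟨_, rfl⟩
    have hf1 : 1 ≤ f := by omega
    have hlo : W * j' ≤ f - 1 := by rw [hj']; exact Nat.mul_div_le _ _
    have hhi : f - 1 < W * (j' + 1) := by
      rw [hj']
      have := Nat.lt_mul_div_succ (f - 1) (show 0 < W by omega)
      exact this
    have hjj' : j ≤ j' := by
      by_contra hcon
      have h8 : W * (j' + 1) ≤ W * j := Nat.mul_le_mul_left _ (by omega)
      omega
    have hj'J : j' ≤ j + J := by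
      by_contra hcon
      have h8 : W * (j + J + 1) ≤ W * j' := Nat.mul_le_mul_left _ (by omega)
      have h9 : W * (j + J + 1) = W * (j + 1) + W * J := by ring
      have h10 : J ≤ W * J := Nat.le_mul_of_pos_left _ hW
      omega
    rw [Finset.mem_biUnion]
    refine ⟨j' - j, Finset.mem_range.2 (by omega), ?_⟩
    rw [Finset.mem_image]
    refine ⟨j', ?_, by omega⟩
    rw [mem_hit]
    exact ⟨by omega, f, by omega, by omega, h7⟩
  have hbig : (hit p' W (N + J)).card ≤ (hit p' W N).card + J := by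
    have h1 : hit p' W (N + J) ⊆ hit p' W N ∪ Ico N (N + J) := by
      intro j hj
      rw [mem_hit] at hj
      rw [Finset.mem_union, Finset.mem_Ico, mem_hit]
      by_cases h2 : j < N
      · exact Or.inl ⟨h2, hj.2⟩
      · exact Or.inr ⟨by omega, hj.1⟩
    refine (Finset.card_le_card h1).trans ((Finset.card_union_le _ _).trans ?_)
    rw [Nat.card_Ico]
    omega
  refine (Finset.card_le_card hsub).trans ((Finset.card_biUnion_le_card_mul _ _
    ((hit p' W N).card + J) ?_).trans ?_)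
  · intro i _
    exact Finset.card_image_le.trans hbig
  · rw [Finset.card_range]

/-- every nontrivial relation between the terms of expansions of an independent tuple, polynomial
form -/
theorem tuple_allU {n : ℕ} (α : Fin n → ℝ) (halg : ∀ i, IsAlgebraic ℚ (α i))
    (hind : ∀ z : Fin n → ℤ, z ≠ 0 → Irrational (∑ i, (z i : ℝ) * α i))
    (b : ℕ) (hb : 2 ≤ b) (G : ℤ) (M0 : ℝ) (hM0 : 0 ≤ M0) :
    ∀ (m : ℕ) (Q : Fin n → ℤ[X]), (∃ i, Q i ≠ 0) →
    (∀ i, (Q i).natDegree ≤ m) → ∀ e : ℤ,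
    ∃ c : ℝ, 0 < c ∧ ∃ N0 : ℕ, ∀ N : ℕ, N0 ≤ N → ∀ Wd : ℕ, 1 ≤ Wd →
      ∀ (g W : Fin n → ℕ → ℤ), Exps b α g W G M0 →
      c * (Real.log N) ^ 3 / (Real.log (Real.log N)) ^ 5 ≤
        ((hit (fun k : ℕ => ∑ i, rel (Q i) (g i) k ≠ e) Wd N).card : ℝ) := by
  intro m
  induction m with
  | zero =>
    intro Q hQ hdeg e
    have hev : (fun i => ∑ j ∈ range (0 + 1), (Q i).coeff j * (b : ℤ) ^ j) ≠ 0 := by
      obtain ⟨i, hi⟩ := hQ
      intro h
      apply hi
      have h1 := congrFun h i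
      simp only [Finset.sum_range_one, pow_zero, mul_one, Pi.zero_apply, zero_add] at h1
      rw [Polynomial.eq_C_of_natDegree_le_zero (hdeg i), h1, C_0]
    obtain ⟨c, hc, N0, h⟩ := tuple_relationsU α halg b hb G M0 hM0 0
      (fun i j => (Q i).coeff j) e (hind _ hev)
    refine ⟨c, hc, N0, fun N hN Wd hWd g W hE => (h N hN Wd hWd g W hE).trans ?_⟩
    have hsub := hit_mono
      (fun k : ℕ => ∑ i, ∑ j ∈ range (0 + 1), (Q i).coeff j * g i (k + j) ≠ e)
      (fun k : ℕ => ∑ i, rel (Q i) (g i) k ≠ e) (by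
        intro k _ hk
        have : ∀ i, rel (Q i) (g i) k =
            ∑ j ∈ range (0 + 1), (Q i).coeff j * g i (k + j) :=
          fun i => rel_apply _ _ _ (hdeg i) k
        simpa only [this] using hk) Wd N
    exact_mod_cast Finset.card_le_card hsub
  | succ m ih =>
    intro Q hQ hdeg e
    by_cases hz : ∃ i, (Q i).eval (b : ℤ) ≠ 0
    · have hev : (fun i => ∑ j ∈ range (m + 1 + 1), (Q i).coeff j * (b : ℤ) ^ j) ≠ 0 := by
        obtain ⟨i, hi⟩ := hz
        intro h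
        apply hi
        have h1 := congrFun h i
        rw [eval_eq_sum_range' (Nat.lt_succ_of_le (hdeg i))]
        exact h1
      obtain ⟨c, hc, N0, h⟩ := tuple_relationsU α halg b hb G M0 hM0 (m + 1)
        (fun i j => (Q i).coeff j) e (hind _ hev)
      refine ⟨c, hc, N0, fun N hN Wd hWd g W hE => (h N hN Wd hWd g W hE).trans ?_⟩
      have hsub := hit_mono
        (fun k : ℕ => ∑ i, ∑ j ∈ range (m + 1 + 1), (Q i).coeff j * g i (k + j) ≠ e)
        (fun k : ℕ => ∑ i, rel (Q i) (g i) k ≠ e) (by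
          intro k _ hk
          have : ∀ i, rel (Q i) (g i) k =
              ∑ j ∈ range (m + 1 + 1), (Q i).coeff j * g i (k + j) :=
            fun i => rel_apply _ _ _ (hdeg i) k
          simpa only [this] using hk) Wd N
      exact_mod_cast Finset.card_le_card hsub
    · push Not at hz
      have hdiv : ∀ i, ∃ P : ℤ[X], Q i = (X - C (b : ℤ)) * P :=
        fun i => dvd_iff_isRoot.2 (hz i)
      choose P hP using hdiv
      have hPdeg : ∀ i, (P i).natDegree ≤ m := by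
        intro i
        by_cases h0 : P i = 0
        · rw [h0, natDegree_zero]; omega
        · have h1 := hdeg i
          rw [hP i, natDegree_mul (X_sub_C_ne_zero _) h0, natDegree_X_sub_C] at h1
          omega
      have hP0 : ∃ i, P i ≠ 0 := by
        obtain ⟨i, hi⟩ := hQ
        refine ⟨i, fun h => hi ?_⟩
        rw [hP i, h, mul_zero]
      have hb1 : ((b : ℤ) - 1) ≠ 0 := by
        have : (2 : ℤ) ≤ b := by exact_mod_cast hb
        omega
      obtain ⟨c, hc, N0, h⟩ := ih (fun i => C ((b : ℤ) - 1) * P i) (by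
        obtain ⟨i, hi⟩ := hP0
        exact ⟨i, mul_ne_zero (C_ne_zero.2 hb1) hi⟩) (by
        intro i
        exact (natDegree_C_mul_le _ _).trans (hPdeg i)) (-e)
      obtain ⟨J, hJ0⟩ := div_stepU b hb (∑ i, ∑ j ∈ range (m + 1), |(P i).coeff j| * G) e
      obtain ⟨c', hc', N1, hN1⟩ := absorbJ ((J + 1) * (J + 1)) c hc
      refine ⟨c', hc', max N0 N1, fun N hN Wd hWd g W hE => ?_⟩
      set w : ℕ → ℤ := fun k => ∑ i, rel (P i) (g i) k with hw
      have hbound : ∀ k, |w k| ≤ ∑ i, ∑ j ∈ range (m + 1), |(P i).coeff j| * G := by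
        intro k
        refine (Finset.abs_sum_le_sum_abs _ _).trans ?_
        apply Finset.sum_le_sum
        intro i _
        rw [rel_apply _ _ _ (hPdeg i)]
        refine (Finset.abs_sum_le_sum_abs _ _).trans ?_
        apply Finset.sum_le_sum
        intro j _
        rw [abs_mul]
        exact mul_le_mul_of_nonneg_left (hE.bd i _) (abs_nonneg _)
      have hJ := hJ0 w hbound
      refine hN1 N (le_trans (le_max_right _ _) hN) _ (Nat.cast_nonneg _)
        ((h N (le_trans (le_max_left _ _) hN) Wd hWd g W hE).trans ?_)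
      have h1 := hit_shift
        (fun k : ℕ => ∑ i, rel (C ((b : ℤ) - 1) * P i) (g i) k ≠ -e)
        (fun k : ℕ => ∑ i, rel (Q i) (g i) k ≠ e) J (by
          intro k hk
          have e1 : ∑ i, rel (C ((b : ℤ) - 1) * P i) (g i) k = ((b : ℤ) - 1) * w k := by
            rw [hw, Finset.mul_sum]
            apply Finset.sum_congr rfl
            intro i _
            rw [rel_C_mul]
          rw [e1] at hk
          obtain ⟨f, h1, h2, h3⟩ := hJ k hk
          refine ⟨f, h1, h2, ?_⟩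
          have e2 : ∑ i, rel (Q i) (g i) f = w (f + 1) - b * w f := by
            rw [hw]
            simp only
            rw [Finset.mul_sum, ← Finset.sum_sub_distrib]
            apply Finset.sum_congr rfl
            intro i _
            rw [hP i, rel_mul, rel_X_sub]
          rw [e2]
          exact h3) Wd N hWd
      have h2 : (J + 1) * ((hit (fun k : ℕ => ∑ i, rel (Q i) (g i) k ≠ e) Wd N).card + J) ≤
          (J + 1) * (J + 1) * (hit (fun k : ℕ => ∑ i, rel (Q i) (g i) k ≠ e) Wd N).card +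
            (J + 1) * (J + 1) := by
        obtain ⟨s, hs⟩ : ∃ s, s = (hit (fun k : ℕ => ∑ i, rel (Q i) (g i) k ≠ e) Wd N).card :=
          ⟨_, rfl⟩
        rw [← hs]
        nlinarith [Nat.zero_le (J * s), Nat.zero_le (J * J * s)]
      exact_mod_cast h1.trans h2

/-- every nontrivial relation between consecutive terms of bounded integer expansions of a tuple of
real algebraic numbers: hit blocks -/
theorem relationsU {n : ℕ} (α : Fin n → ℝ) (halg : ∀ i, IsAlgebraic ℚ (α i))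
    (hind : ∀ z : Fin n → ℤ, z ≠ 0 → Irrational (∑ i, (z i : ℝ) * α i))
    (b : ℕ) (hb : 2 ≤ b) (G : ℤ)
    (m : ℕ) (q : Fin n → ℕ → ℤ) (hq : ∃ i, ∃ j, j ≤ m ∧ q i j ≠ 0)
    (e : ℤ) :
    ∃ c : ℝ, 0 < c ∧ ∃ N0 : ℕ, ∀ N : ℕ, N0 ≤ N → ∀ Wd : ℕ, 1 ≤ Wd →
      ∀ g : Fin n → ℕ → ℤ, (∀ i k, |g i k| ≤ G) →
      (∀ i, HasSum (fun k : ℕ => (g i k : ℝ) / (b : ℝ) ^ k) (α i)) →
      c * (Real.log N) ^ 3 / (Real.log (Real.log N)) ^ 5 ≤
        ((hit (fun k : ℕ => ∑ i, ∑ j ∈ range (m + 1), q i j * g i (k + j) ≠ e) Wd N).card : ℝ) := by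
  set Q : Fin n → ℤ[X] := fun i => ∑ j ∈ range (m + 1), C (q i j) * X ^ j with hQ
  have hcoeff : ∀ i, ∀ j, (Q i).coeff j = if j ∈ range (m + 1) then q i j else 0 := by
    intro i j
    simp only [hQ, finsetSum_coeff, coeff_C_mul, coeff_X_pow]
    rw [← Finset.sum_filter_add_sum_filter_not (range (m + 1)) (fun l => l = j)]
    have h2 : ∑ l ∈ (range (m + 1)).filter (fun l => ¬ l = j),
        q i l * (if j = l then 1 else 0) = 0 := by
      apply Finset.sum_eq_zero
      intro l hl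
      have := (Finset.mem_filter.1 hl).2
      rw [if_neg (fun h => this h.symm), mul_zero]
    rw [h2, add_zero]
    by_cases hj : j ∈ range (m + 1)
    · rw [if_pos hj, Finset.filter_eq' , if_pos hj]
      simp
    · rw [if_neg hj, Finset.filter_eq', if_neg hj]
      simp
  have hdeg : ∀ i, (Q i).natDegree ≤ m := by
    intro i
    apply natDegree_le_iff_coeff_eq_zero.2
    intro j hj
    rw [hcoeff, if_neg]
    rw [Finset.mem_range]; omega
  obtain ⟨c, hc, N0, h⟩ := tuple_allU α halg hind b hb G |(G : ℝ)| (abs_nonneg _) m Q (by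
    obtain ⟨i, j, hj, hij⟩ := hq
    refine ⟨i, fun h0 => hij ?_⟩
    have h1 := hcoeff i j
    rw [h0, coeff_zero, if_pos (Finset.mem_range.2 (by omega))] at h1
    exact h1.symm) hdeg e
  refine ⟨c, hc, N0, fun N hN Wd hWd g hg hsum => ?_⟩
  have hE := exps_of_sum b hb α g G hg hsum
  refine (h N hN Wd hWd g _
    ⟨hE.step, hE.bd, fun i k => (hE.app i k).trans (le_abs_self _)⟩).trans ?_
  have hsub := hit_mono (fun k : ℕ => ∑ i, rel (Q i) (g i) k ≠ e)
    (fun k : ℕ => ∑ i, ∑ j ∈ range (m + 1), q i j * g i (k + j) ≠ e) (by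
      intro k _ hk
      have : ∀ i, rel (Q i) (g i) k =
          ∑ j ∈ range (m + 1), q i j * g i (k + j) := by
        intro i
        rw [rel_apply _ _ _ (hdeg i) k]
        apply Finset.sum_congr rfl
        intro j hj
        rw [hcoeff, if_pos hj]
      simpa only [this] using hk) Wd N
  exact_mod_cast Finset.card_le_card hsub

/-- an interval of length `W` meets at most three blocks -/
lemma hit_cover (p : ℕ → Prop) (W n : ℕ) (hW : 1 ≤ W) (T : Finset ℕ)
    (hT : ∀ k, W < k → k ≤ n * W → p k → ∃ t ∈ T, t ≤ k ∧ k < t + W) :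
    (hit p W n).card ≤ 3 * T.card + 3 := by
  classical
  have hsub : hit p W n ⊆ insert 0 (T.biUnion (fun t => Icc (t / W - 1) (t / W + 1))) := by
    intro j hj
    rw [mem_hit] at hj
    obtain ⟨h1, k, h2, h3, h4⟩ := hj
    rw [Finset.mem_insert]
    by_cases hj0 : j = 0
    · exact Or.inl hj0
    · right
      have h5 : W < k := by
        have : W * 1 ≤ W * j := Nat.mul_le_mul_left _ (by omega)
        omega
      have h6 : k ≤ n * W := by
        have : W * (j + 1) ≤ W * n := Nat.mul_le_mul_left _ (by omega)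
        have h7 : W * n = n * W := by ring
        omega
      obtain ⟨t, ht, h7, h8⟩ := hT k h5 h6 h4
      rw [Finset.mem_biUnion]
      refine ⟨t, ht, ?_⟩
      rw [Finset.mem_Icc]
      have h9 : W * (t / W) ≤ t := Nat.mul_div_le _ _
      have h10 : t < W * (t / W + 1) := Nat.lt_mul_div_succ t (by omega)
      constructor
      · by_contra hcon
        have h11 : W * (j + 2) ≤ W * (t / W) := Nat.mul_le_mul_left _ (by omega)
        have h12 : W * (j + 2) = W * (j + 1) + W := by ring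
        omega
      · by_contra hcon
        have h11 : W * (t / W + 2) ≤ W * j := Nat.mul_le_mul_left _ (by omega)
        have h12 : W * (t / W + 2) = W * (t / W + 1) + W := by ring
        omega
  refine (Finset.card_le_card hsub).trans ((Finset.card_insert_le _ _).trans ?_)
  have h1 : (T.biUnion (fun t => Icc (t / W - 1) (t / W + 1))).card ≤ T.card * 3 := by
    apply Finset.card_biUnion_le_card_mul
    intro t _
    rw [Nat.card_Icc]
    omega
  omega

/-- **The covering theorem.** -/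
theorem covering {n : ℕ} (α : Fin n → ℝ) (halg : ∀ i, IsAlgebraic ℚ (α i))
    (hind : ∀ z : Fin n → ℤ, z ≠ 0 → Irrational (∑ i, (z i : ℝ) * α i))
    (b : ℕ) (hb : 2 ≤ b) (G : ℤ)
    (m : ℕ) (q : Fin n → ℕ → ℤ) (hq : ∃ i, ∃ j, j ≤ m ∧ q i j ≠ 0)
    (e : ℤ) :
    ∃ c : ℝ, 0 < c ∧ ∃ N0 : ℕ, ∀ N : ℕ, N0 ≤ N → ∀ W : ℕ, 1 ≤ W →
      ∀ g : Fin n → ℕ → ℤ, (∀ i k, |g i k| ≤ G) →
      (∀ i, HasSum (fun k : ℕ => (g i k : ℝ) / (b : ℝ) ^ k) (α i)) → ∀ T : Finset ℕ,
      (∀ k, W < k → k ≤ N * W → ∑ i, ∑ j ∈ range (m + 1), q i j * g i (k + j) ≠ e →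
        ∃ t ∈ T, t ≤ k ∧ k < t + W) →
      c * (Real.log N) ^ 3 / (Real.log (Real.log N)) ^ 5 ≤ (T.card : ℝ) := by
  obtain ⟨c, hc, N0, h⟩ := relationsU α halg hind b hb G m q hq e
  obtain ⟨c', hc', N1, hN1⟩ := absorbJ 3 c hc
  refine ⟨c', hc', max N0 N1, fun N hN W hW g hg hsum T hT => ?_⟩
  refine hN1 N (le_trans (le_max_right _ _) hN) _ (Nat.cast_nonneg _)
    ((h N (le_trans (le_max_left _ _) hN) W hW g hg hsum).trans ?_)
  exact_mod_cast hit_cover _ W N hW T hT

end Pool.Agent.H52.CV
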