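import Pool.Agent.H52.V.S8.TH842.A3.SP

/-!
The single prime statement, uniformly in the base (copy of the library proof `TH842/A3/SP.lean`, with the
constants chosen before the base).
-/

set_option autoImplicit false

namespace Pool.Agent.H52.CV

open Finset Polynomial
open Pool.Agent.TH842.A3
open Pool.Agent.TH842
open Pool.Agent.H393R2.DC (UU mem_UU compl_card S Pol V Dn dlt Pol_coeff)
open H393R2.DE (Jmp mem_Jmp exists_Jmp uu_exists lft lft_spec)
open Pool.Agent.H323R2.Gen (pc badG vv Th coeff_Th S_eq_sum_Th Th_comp)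

theorem spU (f : ℤ[X]) (d : ℕ) (hd : f.natDegree = d) (hd2 : 2 ≤ d)
    (hS : ∀ (b q : ℕ) [Fact q.Prime] (G : ℤ[X]) (N R : ℕ), (b : ZMod q) ≠ 0 →
      (f.map (Int.castRingHom (ZMod q))).Separable → R ≤ N →
      (∀ i < d.factorial, R / q ^ i ∉ badG f d b G q N) →
      vv b G q 1 (R / q ^ d.factorial) = vv b G q 1 R)
    (hsep : ∃ D : ℕ, 0 < D ∧ ∀ (q : ℕ) [Fact q.Prime], D ≤ q →
      (f.map (Int.castRingHom (ZMod q))).Separable) :
    ∃ c g : ℕ, ∀ (b : ℕ) (U : ℕ → ℤ), SP5 f d b U c g d.factorial := by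
  classical
  obtain ⟨D0, hD0, hsep⟩ := hsep
  obtain ⟨c1, g1, h1⟩ := PB.Wr d
  obtain ⟨c2, g2, h2⟩ := PB.main d
  set c : ℕ := D0 + c1 + c2 + (d + 1) * d * (cl d + 1) + d + 10 with hc
  set g : ℕ := g1 + g2 + 2 with hg
  refine ⟨c, g, ?_⟩
  intro b U
  intro q N K P e Zl m hqp hcq hbq hroot hbad hbad2 hm hrat hN
  have hq2 : 2 ≤ q := (Fact.out : q.Prime).two_le
  have hqpos : 0 < q := by omega
  set F := d.factorial with hF
  have hF1 : 1 ≤ F := Nat.factorial_pos d
  set ρ := q ^ F with hρ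
  have hρ2 : 2 ≤ ρ := by
    calc 2 ≤ q := hq2
      _ = q ^ 1 := (pow_one q).symm
      _ ≤ q ^ F := Nat.pow_le_pow_right hqpos hF1
  have hρpos : 0 < ρ := by omega
  have hm1 : 1 ≤ m := by omega
  have hmg : 1 ≤ m ^ g := Nat.one_le_pow _ _ hm1
  have hP : 1 ≤ P := by
    by_contra hcon
    have hP0 : P = 0 := by omega
    rw [hP0, pow_zero] at hrat
    have : c * 1 ≤ c * m ^ g := Nat.mul_le_mul_left _ hmg
    omega
  set G := Pol b U N with hG
  set φ : PowerSeries (ZMod q) := Th b q G with hφ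
  set fb := f.map (Int.castRingHom (ZMod q)) with hfb
  have hfbd : fb.natDegree ≤ d := Polynomial.natDegree_map_le.trans hd.le
  have hchar : ∀ j, 1 ≤ j → j ≤ d → ((j : ℕ) : ZMod q) ≠ 0 := by
    intro j h1 h2 h0
    rw [ZMod.natCast_eq_zero_iff] at h0
    have := Nat.le_of_dvd (by omega) h0
    omega
  have hDφ : ∀ y ≤ N, PowerSeries.coeff y φ ≠ 0 → y ∈ Dn b U N := by
    intro y hy h0
    unfold Dn
    rw [Finset.mem_filter, Finset.mem_range]
    refine ⟨by omega, fun h => h0 ?_⟩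
    rw [hφ, coeff_Th, hG, Pol_coeff, if_pos hy, h]
    simp
  have hvv : ∀ R, val φ R = vv b G q 1 R := by
    intro R
    rw [hφ, val_Th b q hbq]
    unfold vv
    rw [pow_one]
  set Eb := badG f d b G q N with hEb
  set E := (range (N + 1)).filter (fun u => u ∉ UU q F Eb N) with hE
  have hEc : E.card ≤ e * ρ := (compl_card hq2 F Eb N).trans (Nat.mul_le_mul_right _ hbad)
  have hdil : ∀ R ≤ N, R ∉ E → val φ (R / ρ) = val φ R := by
    intro R hR hRE
    have hRU : R ∈ UU q F Eb N := by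
      by_contra h
      exact hRE (Finset.mem_filter.2 ⟨Finset.mem_range.2 (by omega), h⟩)
    rw [mem_UU] at hRU
    rw [hvv, hvv]
    exact hS b q G N R hbq (hsep q (by omega)) hR hRU.2
  have hmu : mu N (Polynomial.aeval φ fb) ≤ e := by
    refine le_trans ?_ hbad2
    apply mu_le_card
    intro R hR hne
    refine Finset.mem_filter.2 ⟨Finset.mem_range.2 (by omega), fun h => hne ?_⟩
    rw [hφ, ← Th_comp, val_Th b q hbq, h]
    simp
  -- the main size
  set B : ℕ := E.card * ρ ^ (K + P) with hB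
  set Y : ℕ := (e + 1) ^ g * m ^ g * ρ ^ (g * K + g * P) * (Zl + 1) with hY
  have hNY : c * Y ≤ N := by
    refine le_trans (le_of_eq ?_) hN
    rw [hY]; ring
  have he1 : e + 1 ≤ (e + 1) ^ g := Nat.le_self_pow (by omega) _
  have heg : 1 ≤ (e + 1) ^ g := Nat.one_le_pow _ _ (by omega)
  have hρg : ∀ j, j ≤ g * K + g * P → ρ ^ j ≤ ρ ^ (g * K + g * P) := fun j hj =>
    Nat.pow_le_pow_right hρpos hj
  have hgK : 2 * K + 2 * P ≤ g * K + g * P := by
    have a1 : 2 * K ≤ g * K := Nat.mul_le_mul_right _ (by omega)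
    have a2 : 2 * P ≤ g * P := Nat.mul_le_mul_right _ (by omega)
    omega
  have hY1 : ρ ^ (g * K + g * P) * (e + 1) ≤ Y := by
    calc ρ ^ (g * K + g * P) * (e + 1) = (e + 1) * 1 * ρ ^ (g * K + g * P) * 1 := by ring
      _ ≤ (e + 1) ^ g * m ^ g * ρ ^ (g * K + g * P) * (Zl + 1) := by gcongr; omega
  have hBY : B ≤ Y := by
    calc B ≤ e * ρ * ρ ^ (K + P) := Nat.mul_le_mul_right _ hEc
      _ = ρ ^ (K + P + 1) * e := by rw [pow_succ]; ring
      _ ≤ ρ ^ (g * K + g * P) * (e + 1) := Nat.mul_le_mul (hρg _ (by omega)) (by omega)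
      _ ≤ Y := hY1
  have hYpos : 1 ≤ Y := by
    refine le_trans ?_ hY1
    exact Nat.mul_pos (by positivity) (by omega)
  have hZY : ρ ^ P * Zl ≤ Y := by
    calc ρ ^ P * Zl ≤ ρ ^ (g * K + g * P) * Zl := Nat.mul_le_mul_right _ (hρg _ (by omega))
      _ = 1 * 1 * ρ ^ (g * K + g * P) * Zl := by ring
      _ ≤ (e + 1) ^ g * m ^ g * ρ ^ (g * K + g * P) * (Zl + 1) := by gcongr; omega
  have hmain : ρ ^ (K + P) * (e + m * (E.card * ρ ^ K) *
      ((d + 1) * (d * (1 + Mb d m) ^ d)) + 1) ≤ (c2 + 1) * Y := by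
    have a1 : m * (E.card * ρ ^ K) * ((d + 1) * (d * (1 + Mb d m) ^ d)) ≤
        c2 * m ^ g2 * (e * ρ ^ (K + 1)) := by
      calc m * (E.card * ρ ^ K) * ((d + 1) * (d * (1 + Mb d m) ^ d))
          = (m * ((d + 1) * (d * (1 + Mb d m) ^ d))) * (E.card * ρ ^ K) := by ring
        _ ≤ (c2 * m ^ g2) * (e * ρ * ρ ^ K) :=
            Nat.mul_le_mul (h2 m hm1) (Nat.mul_le_mul_right _ hEc)
        _ = _ := by rw [pow_succ]; ring
    have a2 : ρ ^ (K + P) * (c2 * m ^ g2 * (e * ρ ^ (K + 1))) ≤ c2 * Y := by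
      calc ρ ^ (K + P) * (c2 * m ^ g2 * (e * ρ ^ (K + 1)))
          = c2 * (e * m ^ g2 * ρ ^ (K + P + (K + 1)) * 1) := by rw [pow_add ρ (K + P)]; ring
        _ ≤ c2 * ((e + 1) ^ g * m ^ g * ρ ^ (g * K + g * P) * (Zl + 1)) := by
            apply Nat.mul_le_mul_left
            apply Nat.mul_le_mul _ (by omega)
            apply Nat.mul_le_mul _ (hρg _ (by omega))
            exact Nat.mul_le_mul (by omega) (Nat.pow_le_pow_right hm1 (by omega))
    have a3 : ρ ^ (K + P) * (e + 1) ≤ Y := le_trans (Nat.mul_le_mul_right _ (hρg _ (by omega))) hY1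
    calc ρ ^ (K + P) * (e + m * (E.card * ρ ^ K) * ((d + 1) * (d * (1 + Mb d m) ^ d)) + 1)
        ≤ ρ ^ (K + P) * (e + c2 * m ^ g2 * (e * ρ ^ (K + 1)) + 1) :=
          Nat.mul_le_mul_left _ (by omega)
      _ = ρ ^ (K + P) * (e + 1) + ρ ^ (K + P) * (c2 * m ^ g2 * (e * ρ ^ (K + 1))) := by ring
      _ ≤ Y + c2 * Y := Nat.add_le_add a3 a2
      _ = (c2 + 1) * Y := by ring
  have hcY : (c2 + 10) * Y ≤ N := le_trans (Nat.mul_le_mul_right _ (by omega)) hNY
  have hcY2 : (c2 + 10) * Y = (c2 + 1) * Y + 9 * Y := by ring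
  -- the top point
  obtain ⟨w, hw, hw1, hw2⟩ := uu_exists (q := ρ) (K1 := K + P) (N := N) (E := E) hρ2
    (a := N - (2 * B + 1)) (by omega)
  have hwN : w + E.card * ρ ^ K + 1 ≤ N := by
    have a1 : E.card * ρ ^ K ≤ B := Nat.mul_le_mul_left _ (Nat.pow_le_pow_right hρpos (by omega))
    have a2 : w ≤ N - (2 * B + 1) + B := hw2
    omega
  have hsingle := single_abs fb d (by omega) hfbd hroot hchar φ (Dn b U N) E ρ N K P m e w hρ2 hP
    hDφ (by omega) hdil hmu hw hwN (by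
      refine (h1 m hm1).trans (le_trans ?_ hrat)
      exact Nat.mul_le_mul (by omega) (Nat.pow_le_pow_right hm1 (by omega))) (by omega)
  have hD : ∀ x y, x ≤ y → y ≤ N → val φ x ≠ val φ y → ∃ δ ∈ Dn b U N, x < δ ∧ δ ≤ y := by
    intro x y hxy hyN hne
    by_contra hcon
    push Not at hcon
    apply hne
    symm
    apply val_const φ hxy
    intro u h1 h2
    by_contra h3
    have := hcon u (hDφ u (by omega) h3) h1
    omega
  obtain ⟨A, δ, hA1, hA2, hA3, hA4⟩ := chains' (s := val φ) hρ2 hdil hD hP hw hwN _ rfl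
  refine ⟨A, δ, ?_, ?_, hA3, ?_⟩
  · intro u hu
    refine le_trans ?_ (hA1 u hu)
    rw [Nat.le_div_iff_mul_le (by positivity), mul_comm]
    omega
  · intro u hu k hk
    obtain ⟨b1, b2, b3, b4⟩ := hA2 u hu k hk
    refine ⟨b1, b3, b4.trans ?_⟩
    have a1 : E.card * ρ ^ K ≤ e * ρ ^ (g * K + g * P + g) := by
      calc E.card * ρ ^ K ≤ e * ρ * ρ ^ K := Nat.mul_le_mul_right _ hEc
        _ = e * ρ ^ (K + 1) := by rw [pow_succ]; ring
        _ ≤ _ := Nat.mul_le_mul_left _ (Nat.pow_le_pow_right hρpos (by omega))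
    omega
  · refine hsingle.trans ?_
    set J := Jmp (UU ρ K E N) (val φ) (w / ρ ^ P) w with hJ
    calc P * ((d + 1) * (d * (J.card * cl d) + 1))
        ≤ P * ((d + 1) * (d * (P * A.card * cl d) + d)) := by
          apply Nat.mul_le_mul_left
          apply Nat.mul_le_mul_left
          apply Nat.add_le_add _ (by omega)
          apply Nat.mul_le_mul_left
          exact Nat.mul_le_mul_right _ hA4
      _ = (d + 1) * d * P * (P * A.card * cl d + 1) := by ring
      _ ≤ c * P * (P * A.card + 1) := final_arith _ _ _ _ _ (by rw [hc]; omega)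

end Pool.Agent.H52.CV
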