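import Pool.Agent.H52.V.S8.H323R2.Gen8

/-!
The polynomials `f_k(X) = k^d f(X / k)` (`Polynomial.scaleRoots`).
-/

set_option autoImplicit false

namespace Pool.Agent.H52.CV

open Polynomial Finset
open Pool.Agent.H393R2.DC (n1)

lemma sc_monic (f : ℤ[X]) (hf : f.Monic) (k : ℤ) : (scaleRoots f k).Monic :=
  (monic_scaleRoots_iff k).2 hf

lemma sc_deg (f : ℤ[X]) (k : ℤ) : (scaleRoots f k).natDegree = f.natDegree :=
  natDegree_scaleRoots f k

lemma sc_map {R : Type} [Field R] (φ : ℤ →+* R) (f : ℤ[X]) (hf : f.Monic) (k : ℤ)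
    (hk : φ k ≠ 0) :
    (scaleRoots f k).map φ = C (φ k ^ f.natDegree) * (f.map φ).comp (C (φ k)⁻¹ * X) := by
  ext i
  rw [coeff_map, coeff_scaleRoots, coeff_C_mul, comp_C_mul_X_coeff, coeff_map, map_mul, map_pow]
  by_cases hi : i ≤ f.natDegree
  · have h1 : φ k ^ f.natDegree = φ k ^ (f.natDegree - i) * φ k ^ i := by
      rw [← pow_add]; congr 1; omega
    have h2 : φ k ^ i ≠ 0 := pow_ne_zero _ hk
    rw [h1, inv_pow]
    field_simp
  · rw [coeff_eq_zero_of_natDegree_lt (by omega)]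
    simp

lemma sc_eval {R : Type} [Field R] (φ : ℤ →+* R) (f : ℤ[X]) (hf : f.Monic) (k : ℤ)
    (hk : φ k ≠ 0) (a : R) :
    ((scaleRoots f k).map φ).eval a = φ k ^ f.natDegree * (f.map φ).eval ((φ k)⁻¹ * a) := by
  rw [sc_map φ f hf k hk, eval_mul, eval_C, eval_comp, eval_mul, eval_C, eval_X]

/-- the root -/
lemma sc_root (f : ℤ[X]) (hf : f.Monic) (k : ℤ) (hk : k ≠ 0) (t : ℝ)
    (ht : (f.map (Int.castRingHom ℝ)).eval t = 0) :
    ((scaleRoots f k).map (Int.castRingHom ℝ)).eval ((k : ℝ) * t) = 0 := by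
  have hkR : (Int.castRingHom ℝ) k ≠ 0 := by
    simpa using hk
  rw [sc_eval _ f hf k hkR]
  have h1 : ((Int.castRingHom ℝ) k)⁻¹ * ((k : ℝ) * t) = t := by
    have : (k : ℝ) ≠ 0 := by exact_mod_cast hk
    simp only [eq_intCast]
    field_simp
  rw [h1, ht, mul_zero]

/-- no roots modulo `q` is inherited -/
lemma sc_noroot (f : ℤ[X]) (hf : f.Monic) (k : ℤ) (q : ℕ) [Fact q.Prime]
    (hk : (k : ZMod q) ≠ 0)
    (h : ∀ a : ZMod q, (f.map (Int.castRingHom (ZMod q))).eval a ≠ 0) (a : ZMod q) :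
    ((scaleRoots f k).map (Int.castRingHom (ZMod q))).eval a ≠ 0 := by
  have hk' : (Int.castRingHom (ZMod q)) k ≠ 0 := by simpa using hk
  rw [sc_eval _ f hf k hk']
  exact mul_ne_zero (pow_ne_zero _ hk') (h _)

/-- if `f_k` has no roots modulo `q` then `q` does not divide `k` -/
lemma sc_ne (f : ℤ[X]) (hd : 1 ≤ f.natDegree) (k : ℤ) (q : ℕ) [Fact q.Prime]
    (h : ∀ a : ZMod q, ((scaleRoots f k).map (Int.castRingHom (ZMod q))).eval a ≠ 0) :
    (k : ZMod q) ≠ 0 := by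
  intro hk
  apply h 0
  rw [← coeff_zero_eq_eval_zero, coeff_map, coeff_scaleRoots, map_mul, map_pow]
  have h1 : (Int.castRingHom (ZMod q)) k = 0 := by simpa using hk
  rw [h1, zero_pow (by omega), mul_zero]

lemma sep_comp {R : Type} [Field R] (p : R[X]) (hp : p.Separable) (c u : R) (hc : c ≠ 0)
    (hu : u ≠ 0) : (C u * p.comp (C c * X)).Separable := by
  obtain ⟨a, b, hab⟩ := hp
  refine ⟨C u⁻¹ * a.comp (C c * X), C (u⁻¹ * c⁻¹) * b.comp (C c * X), ?_⟩
  have h1 : derivative (C u * p.comp (C c * X)) =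
      C u * (C c * (derivative p).comp (C c * X)) := by
    rw [derivative_C_mul, derivative_comp, derivative_C_mul_X]
  have h2 : (C u⁻¹ * C u : R[X]) = 1 := by
    rw [← C_mul, inv_mul_cancel₀ hu, C_1]
  have h3 : (C (u⁻¹ * c⁻¹) * (C u * C c) : R[X]) = 1 := by
    rw [← C_mul, ← C_mul]
    have : u⁻¹ * c⁻¹ * (u * c) = 1 := by field_simp
    rw [this, C_1]
  have h4 := congrArg (fun r : R[X] => r.comp (C c * X)) hab
  simp only [add_comp, mul_comp, one_comp] at h4
  rw [h1]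
  calc C u⁻¹ * a.comp (C c * X) * (C u * p.comp (C c * X)) +
        C (u⁻¹ * c⁻¹) * b.comp (C c * X) * (C u * (C c * (derivative p).comp (C c * X)))
      = (C u⁻¹ * C u) * (a.comp (C c * X) * p.comp (C c * X)) +
        (C (u⁻¹ * c⁻¹) * (C u * C c)) * (b.comp (C c * X) * (derivative p).comp (C c * X)) := by
        ring
    _ = 1 := by rw [h2, h3, one_mul, one_mul]; exact h4

/-- separability is inherited -/
lemma sc_sep (f : ℤ[X]) (hf : f.Monic) (k : ℤ) (q : ℕ) [Fact q.Prime]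
    (hk : (k : ZMod q) ≠ 0) (h : (f.map (Int.castRingHom (ZMod q))).Separable) :
    ((scaleRoots f k).map (Int.castRingHom (ZMod q))).Separable := by
  have hk' : (Int.castRingHom (ZMod q)) k ≠ 0 := by simpa using hk
  rw [sc_map _ f hf k hk']
  exact sep_comp _ h _ _ (inv_ne_zero hk') (pow_ne_zero _ hk')

/-- size of the coefficients -/
lemma sc_n1 (f : ℤ[X]) (k : ℤ) (hk : k ≠ 0) :
    n1 (scaleRoots f k) ≤ |k| ^ f.natDegree * n1 f := by
  have h1 : (scaleRoots f k).support ⊆ f.support := by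
    intro i hi
    rw [mem_support_iff, coeff_scaleRoots] at hi
    rw [mem_support_iff]
    intro h0
    apply hi
    rw [h0, zero_mul]
  rw [Pool.Agent.H393R2.DC.n1_eq_of_support_subset _ _ h1,
    Pool.Agent.H393R2.DC.n1_eq_of_support_subset f _ subset_rfl, Finset.mul_sum]
  apply Finset.sum_le_sum
  intro i hi
  rw [coeff_scaleRoots, abs_mul, abs_pow]
  have h2 : (1 : ℤ) ≤ |k| := Int.one_le_abs hk
  have h3 : |k| ^ (f.natDegree - i) ≤ |k| ^ f.natDegree := pow_le_pow_right₀ h2 (Nat.sub_le _ _)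
  calc |f.coeff i| * |k| ^ (f.natDegree - i) ≤ |f.coeff i| * |k| ^ f.natDegree :=
        mul_le_mul_of_nonneg_left h3 (abs_nonneg _)
    _ = _ := mul_comm _ _

end Pool.Agent.H52.CV
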