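import Pool.Agent.H52.CV.SPF
import Pool.Agent.H52.CV.AsymV
import Pool.Agent.H52.CV.Scale
import Pool.Agent.H52.CV.Red

/-!
# The covering theorem, uniformly in the base, the relation, the expansion and the block length
-/

set_option autoImplicit false

namespace Pool.Agent.H52.CV

open Finset Filter Topology Polynomial
open Pool.Agent.H393R2.DC (n1 Dn dlt)
open Pool.Agent.H323R2.Gen (NR)
open Pool.Agent.TH842.A3.Out5 (absorb3 absorbJ)
open Pool.Agent.TH842.A3.Uni (Exps exps_of_sum)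
open Pool.Agent.W44 (exists_monic)
open Pool.Agent.TH698.A3 (ev_cond)

/-- the primes `p ≤ y` which divide `n` -/
noncomputable def smallPrimes (y : ℝ) (n : ℤ) : Finset ℕ :=
  (range (⌊y⌋₊ + 1)).filter (fun p => p.Prime ∧ (p : ℤ) ∣ n)

lemma NR_scale (f : ℤ[X]) (hf : f.Monic) (b W : ℕ) (k : ℤ) (Q : ℕ) (y : ℝ) (hy : (Q : ℝ) ≤ y) :
    (NR f 1 Q).card ≤ (NR (scaleRoots f k) (b ^ W) Q).card + (smallPrimes y (b * k)).card := by
  classical
  have hsub : NR f 1 Q ⊆ NR (scaleRoots f k) (b ^ W) Q ∪ smallPrimes y (b * k) := by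
    intro q hq
    unfold NR at hq
    rw [Finset.mem_filter, Finset.mem_range] at hq
    obtain ⟨h1, h2, _, h3⟩ := hq
    have : Fact q.Prime := ⟨h2⟩
    rw [Finset.mem_union]
    by_cases hdiv : (q : ℤ) ∣ (b : ℤ) * k
    · right
      unfold smallPrimes
      rw [Finset.mem_filter, Finset.mem_range]
      refine ⟨?_, h2, hdiv⟩
      have : q ≤ ⌊y⌋₊ := Nat.le_floor (le_trans (by exact_mod_cast (by omega : q ≤ Q)) hy)
      omega
    · left
      have hbk : (((b : ℤ) * k : ℤ) : ZMod q) ≠ 0 := by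
        intro h
        exact hdiv ((ZMod.intCast_zmod_eq_zero_iff_dvd _ _).1 h)
      push_cast at hbk
      have hb0 : (b : ZMod q) ≠ 0 := left_ne_zero_of_mul hbk
      have hk0 : (k : ZMod q) ≠ 0 := right_ne_zero_of_mul hbk
      unfold NR
      rw [Finset.mem_filter, Finset.mem_range]
      refine ⟨h1, h2, ?_, sc_noroot f hf k q hk0 h3⟩
      push_cast
      exact pow_ne_zero _ hb0
  exact (Finset.card_le_card hsub).trans (Finset.card_union_le _ _)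

theorem main_algV (x : ℝ) (halg : IsAlgebraic ℚ x) (hirr : Irrational x) :
    ∃ c : ℝ, 0 < c ∧ ∃ N0 : ℕ, ∀ N : ℕ, N0 ≤ N → ∀ b : ℕ, 2 ≤ b → ∀ k : ℤ, k ≠ 0 →
      ∀ L : ℕ, (L : ℝ) ≤ 5 * Real.log N → |k| ≤ (b : ℤ) ^ L → ∀ C0 : ℝ, 0 ≤ C0 →
      C0 ≤ (b : ℝ) ^ L →
      ((smallPrimes (Real.log N) (b * k)).card : ℝ) ≤
        c * Real.log N / (Real.log (Real.log N)) ^ 2 →
      ∀ W : ℕ, 1 ≤ W → ∀ Y : ℕ → ℤ,
      (∀ K, |(Y K : ℝ) - (b : ℝ) ^ K * (k * x)| ≤ C0) →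
      c * (Real.log N) ^ 3 / (Real.log (Real.log N)) ^ 5 ≤
        ((hit (fun k => ∃ i, k = i + 1 ∧ Y (i + 1) ≠ b * Y i) W N).card : ℝ) := by
  classical
  obtain ⟨S, hS, f, hf, hfi, hd2, hroot⟩ := exists_monic _ halg hirr
  obtain ⟨d, hd⟩ : ∃ d : ℕ, d = f.natDegree := ⟨_, rfl⟩
  rw [← hd] at hd2
  obtain ⟨D0, hD0, hsep⟩ := Pool.Agent.TH761.A3Frob.sep_of_large f hf hfi
  obtain ⟨c, g, hSP⟩ := spF d hd2 D0 hD0
  obtain ⟨c1, hc1, Q0, hQ0⟩ := Pool.Agent.H323R2.NT.supply f hf hfi (by omega) 1 le_rfl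
  have hf0 : (0 : ℝ) ≤ (n1 f : ℝ) := by exact_mod_cast Pool.Agent.H393R2.DC.n1_nonneg f
  obtain ⟨E, hE⟩ : ∃ E : ℕ, 24 * (1 + (n1 f : ℝ)) * (1 + |(S : ℝ) * x| + |(S : ℝ)|) ^ 2 ≤ 2 ^ E := by
    obtain ⟨E, hE⟩ := exists_nat_ge (24 * (1 + (n1 f : ℝ)) * (1 + |(S : ℝ) * x| + |(S : ℝ)|) ^ 2)
    refine ⟨E, hE.trans ?_⟩
    have : E ≤ 2 ^ E := Nat.lt_two_pow_self.le
    exact_mod_cast this
  obtain ⟨CM, hCM⟩ : ∃ CM : ℝ, CM = 8 * d * (1 + E + (d + 2) * 5) := ⟨_, rfl⟩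
  have hCM0 : 0 ≤ CM := by rw [hCM]; positivity
  obtain ⟨κ0, hκ0, c3, hc3, N1, hmain⟩ := asymV d hd2 c g d.factorial (Nat.factorial_pos _)
    (Pool.Agent.TH461.A3.walk_pow _ (Nat.factorial_pos _)) (c1 / 2) (by positivity) CM hCM0
  obtain ⟨c', hc', N2, hN2⟩ := absorb3 c3 hc3
  obtain ⟨X, hX⟩ := ev_cond 1 κ0 1 1 (Q0 + 3) one_pos hκ0 1
  obtain ⟨N3, hN3⟩ := eventually_atTop.1
    ((Real.tendsto_log_atTop.comp (tendsto_natCast_atTop_atTop (R := ℝ))).eventually_ge_atTop X)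
  obtain ⟨cc, hcc⟩ : ∃ cc : ℝ, cc = min c' (c1 / 2 / κ0) := ⟨_, rfl⟩
  have hcc0 : 0 < cc := by rw [hcc]; exact lt_min hc' (by positivity)
  refine ⟨cc, hcc0, max (max N1 N2) N3, fun N hN b hb k hk L hL hkL C0 hC0 hC0L hfew W hW Y hY => ?_⟩
  have hN1' : N1 ≤ N := le_trans (le_trans (le_max_left _ _) (le_max_left _ _)) hN
  have hN2' : N2 ≤ N := le_trans (le_trans (le_max_right _ _) (le_max_left _ _)) hN
  have hN3' : N3 ≤ N := le_trans (le_max_right _ _) hN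
  have hNX : X ≤ Real.log N := hN3 N hN3'
  obtain ⟨y, hy⟩ : ∃ y : ℝ, y = Real.log N := ⟨_, rfl⟩
  rw [← hy] at hNX hL hfew ⊢
  obtain ⟨_, _, e3, e4, _, e6, _, _, _⟩ := hX _ hNX
  obtain ⟨lam, hlam⟩ : ∃ lam : ℝ, lam = Real.log y := ⟨_, rfl⟩
  rw [← hlam] at e3 e4 hfew ⊢
  have hlam0 : 0 < lam := by linarith
  have hy0 : 0 < y := by linarith
  have hb1 : (2 : ℝ) ≤ b := by exact_mod_cast hb
  have hb0 : (0 : ℝ) < b := by linarith
  have hbW2 : 2 ≤ b ^ W := by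
    calc 2 ≤ b := hb
      _ = b ^ 1 := (pow_one b).symm
      _ ≤ b ^ W := Nat.pow_le_pow_right (by omega) hW
  -- the sequence
  set U : ℕ → ℤ := fun n => S * Y (W * n) with hU
  obtain ⟨t, ht⟩ : ∃ t : ℝ, t = (k : ℝ) * ((S : ℝ) * x) := ⟨_, rfl⟩
  have hUa : ∀ n, |(U n : ℝ) - ((b ^ W : ℕ) : ℝ) ^ n * t| ≤ |(S : ℝ)| * C0 := by
    intro n
    have e : (U n : ℝ) - ((b ^ W : ℕ) : ℝ) ^ n * t =
        S * ((Y (W * n) : ℝ) - (b : ℝ) ^ (W * n) * (k * x)) := by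
      simp only [hU, ht]; push_cast; rw [← pow_mul]; ring
    rw [e, abs_mul]
    exact mul_le_mul_of_nonneg_left (hY (W * n)) (by positivity)
  obtain ⟨fk, hfk⟩ : ∃ fk : ℤ[X], fk = scaleRoots f k := ⟨_, rfl⟩
  have hfkm : fk.Monic := by rw [hfk]; exact sc_monic f hf k
  have hfkd : fk.natDegree = d := by rw [hfk, sc_deg, hd]
  have hfkr : (fk.map (Int.castRingHom ℝ)).eval t = 0 := by
    rw [hfk, ht]; exact sc_root f hf k hk _ hroot
  have hkLR : |(k : ℝ)| ≤ (b : ℝ) ^ L := by exact_mod_cast hkL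
  have hbL1 : (1 : ℝ) ≤ (b : ℝ) ^ L := one_le_pow₀ (by linarith)
  obtain ⟨M0, hM0⟩ : ∃ M0 : ℕ, M0 = E + L * (d + 2) := ⟨_, rfl⟩
  have hn1k : (n1 fk : ℝ) ≤ ((b : ℝ) ^ L) ^ d * (n1 f : ℝ) := by
    have h1 := sc_n1 f k hk
    rw [← hfk, ← hd] at h1
    have h2 : (n1 fk : ℝ) ≤ |(k : ℝ)| ^ d * (n1 f : ℝ) := by exact_mod_cast h1
    refine h2.trans ?_
    apply mul_le_mul_of_nonneg_right _ hf0
    exact pow_le_pow_left₀ (abs_nonneg _) hkLR _
  have hn1k0 : (0 : ℝ) ≤ (n1 fk : ℝ) := by exact_mod_cast Pool.Agent.H393R2.DC.n1_nonneg fk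
  have hM0b : 12 * (2 * (1 + (n1 fk : ℝ))) * (1 + |t| + |(S : ℝ)| * C0) *
      (1 + |t| + |(S : ℝ)| * C0) ≤ ((b ^ W : ℕ) : ℝ) ^ M0 := by
    have h1 : 1 + |t| + |(S : ℝ)| * C0 ≤ (1 + |(S : ℝ) * x| + |(S : ℝ)|) * (b : ℝ) ^ L := by
      have h2 : |t| ≤ (b : ℝ) ^ L * |(S : ℝ) * x| := by
        rw [ht, abs_mul]
        exact mul_le_mul_of_nonneg_right hkLR (abs_nonneg _)
      have h3 : |(S : ℝ)| * C0 ≤ |(S : ℝ)| * (b : ℝ) ^ L :=
        mul_le_mul_of_nonneg_left hC0L (abs_nonneg _)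
      nlinarith
    have h1' : 0 ≤ 1 + |t| + |(S : ℝ)| * C0 := by positivity
    have hbLd : (1 : ℝ) ≤ ((b : ℝ) ^ L) ^ d := one_le_pow₀ hbL1
    have h4 : 1 + (n1 fk : ℝ) ≤ ((b : ℝ) ^ L) ^ d * (1 + (n1 f : ℝ)) := by nlinarith
    calc 12 * (2 * (1 + (n1 fk : ℝ))) * (1 + |t| + |(S : ℝ)| * C0) * (1 + |t| + |(S : ℝ)| * C0)
        = 24 * (1 + (n1 fk : ℝ)) * (1 + |t| + |(S : ℝ)| * C0) ^ 2 := by ring
      _ ≤ 24 * (((b : ℝ) ^ L) ^ d * (1 + (n1 f : ℝ))) *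
          ((1 + |(S : ℝ) * x| + |(S : ℝ)|) * (b : ℝ) ^ L) ^ 2 := by gcongr
      _ = (24 * (1 + (n1 f : ℝ)) * (1 + |(S : ℝ) * x| + |(S : ℝ)|) ^ 2) *
          ((b : ℝ) ^ L) ^ (d + 2) := by ring
      _ ≤ 2 ^ E * ((b : ℝ) ^ L) ^ (d + 2) := mul_le_mul_of_nonneg_right hE (by positivity)
      _ ≤ (b : ℝ) ^ E * ((b : ℝ) ^ L) ^ (d + 2) := by gcongr
      _ = (b : ℝ) ^ M0 := by rw [← pow_mul, ← pow_add, hM0]
      _ ≤ ((b ^ W : ℕ) : ℝ) ^ M0 := by
          apply pow_le_pow_left₀ hb0.le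
          push_cast
          calc (b : ℝ) = (b : ℝ) ^ 1 := (pow_one _).symm
            _ ≤ (b : ℝ) ^ W := pow_le_pow_right₀ (by linarith) hW
  have hM0N : 8 * (d : ℝ) * (1 + (M0 : ℝ)) ≤ CM * y := by
    rw [hM0, hCM]; push_cast
    have h1 : (1 : ℝ) + (E + L * (d + 2)) ≤ (1 + E + (d + 2) * 5) * y := by
      have h2 : (L : ℝ) * (d + 2) ≤ 5 * y * (d + 2) := mul_le_mul_of_nonneg_right hL (by positivity)
      have h3 : (1 : ℝ) + E ≤ (1 + E) * y := le_mul_of_one_le_right (by positivity) (by linarith)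
      nlinarith
    calc 8 * (d : ℝ) * (1 + (E + L * (d + 2))) ≤ 8 * d * ((1 + E + (d + 2) * 5) * y) :=
          mul_le_mul_of_nonneg_left h1 (by positivity)
      _ = _ := by ring
  -- the primes
  have hsup : ∀ Q : ℕ, y / (κ0 * lam) ≤ Q → (Q : ℝ) ≤ y →
      c1 / 2 * Q / Real.log Q ≤ ((NR fk (b ^ W) Q).card : ℝ) := by
    intro Q hQl hQu
    have hQ0Q : Q0 + 3 ≤ Q := by
      have : ((Q0 + 3 : ℕ) : ℝ) ≤ Q := by push_cast; linarith
      exact_mod_cast this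
    have h1 := hQ0 Q (by omega)
    have h2 := NR_scale f hf b W k Q y hQu
    rw [← hfk] at h2
    have h2' : ((NR f 1 Q).card : ℝ) ≤ (NR fk (b ^ W) Q).card + (smallPrimes y (b * k)).card := by
      exact_mod_cast h2
    have hQ3 : (3 : ℝ) ≤ Q := by exact_mod_cast (by omega : 3 ≤ Q)
    have hlogQ0 : 0 < Real.log Q := Real.log_pos (by linarith)
    have hlogQ : Real.log Q ≤ lam := by rw [hlam]; exact Real.log_le_log (by linarith) hQu
    have h3 : cc * y / lam ^ 2 ≤ c1 / 2 * Q / Real.log Q := by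
      calc cc * y / lam ^ 2 ≤ (c1 / 2 / κ0) * y / lam ^ 2 := by
            apply div_le_div_of_nonneg_right _ (by positivity)
            apply mul_le_mul_of_nonneg_right _ hy0.le
            rw [hcc]; exact min_le_right _ _
        _ = c1 / 2 * (y / (κ0 * lam)) / lam := by field_simp
        _ ≤ c1 / 2 * Q / lam := by
            apply div_le_div_of_nonneg_right _ hlam0.le
            exact mul_le_mul_of_nonneg_left hQl (by positivity)
        _ ≤ c1 / 2 * Q / Real.log Q := by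
            apply div_le_div_of_nonneg_left (by positivity) hlogQ0 hlogQ
    have h4 : c1 * Q / Real.log Q = c1 / 2 * Q / Real.log Q + c1 / 2 * Q / Real.log Q := by ring
    linarith
  have hSPk := hSP fk hfkd
    (fun b q _ G N R hbq hs hR hbad =>
      Pool.Agent.TH761.A3Frob.s_dil fk hfkm d hfkd hd2 b G q hbq hs N R hR hbad)
    (fun q _ hq hno => by
      rw [hfk] at hno ⊢
      have hk0 := sc_ne f (by omega) k q hno
      exact sc_sep f hf k q hk0 (hsep q hq)) (b ^ W) U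
  have hfinal := hmain N hN1' fk hfkm hfkd (b ^ W) hbW2 t (|(S : ℝ)| * C0) (by positivity) hfkr M0
    hM0b (by rw [← hy]; exact hM0N) (by rw [← hy, ← hlam]; exact hsup) U hSPk hUa
  rw [← hy, ← hlam] at hfinal
  have hsub : Dn (b ^ W) U N ⊆
      insert 0 ((hit (fun k => ∃ i, k = i + 1 ∧ Y (i + 1) ≠ b * Y i) W N).image (· + 1)) := by
    intro k hk
    unfold Dn at hk
    rw [Finset.mem_filter, Finset.mem_range] at hk
    rw [Finset.mem_insert]
    cases k with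
    | zero => exact Or.inl rfl
    | succ k =>
      right
      rw [Finset.mem_image]
      refine ⟨k, ?_, rfl⟩
      rw [mem_hit]
      refine ⟨by omega, ?_⟩
      by_contra hcon
      push Not at hcon
      apply hk.2
      simp only [dlt, hU]
      have h1 := pow_step b Y (W * k) W (by
        intro i h1 h2
        have h3 := hcon (i + 1) (by omega) (by
          have : W * (k + 1) = W * k + W := by ring
          omega)
        exact h3 i rfl)
      rw [show W * (k + 1) = W * k + W by ring, h1]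
      push_cast
      ring
  have h1 := (Finset.card_le_card hsub).trans (Finset.card_insert_le _ _)
  have h2 := Finset.card_image_le (s := hit (fun k => ∃ i, k = i + 1 ∧ Y (i + 1) ≠ b * Y i) W N)
    (f := (· + 1))
  have h3 := h1.trans (Nat.add_le_add_right h2 1)
  have h4 := hN2 N hN2' ((hit (fun k => ∃ i, k = i + 1 ∧ Y (i + 1) ≠ b * Y i) W N).card : ℝ) (by
    rw [← hy, ← hlam]
    refine hfinal.trans ?_
    exact_mod_cast h3)
  rw [← hy, ← hlam] at h4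
  refine le_trans ?_ h4
  apply div_le_div_of_nonneg_right _ (by positivity)
  apply mul_le_mul_of_nonneg_right _ (by positivity)
  rw [hcc]; exact min_le_left _ _

/-- **The covering theorem, uniformly in all parameters.** -/
theorem uniform (x : ℝ) (halg : IsAlgebraic ℚ x) (hirr : Irrational x) :
    ∃ c : ℝ, 0 < c ∧ ∃ N0 : ℕ, ∀ N : ℕ, N0 ≤ N → ∀ b : ℕ, 2 ≤ b → ∀ L : ℕ,
      (L : ℝ) ≤ Real.log N → ∀ (u v w : ℤ), u ≠ 0 → |u| ≤ (b : ℤ) ^ L → w ≠ 0 →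
      |w| ≤ (b : ℤ) ^ L → ∀ (m : ℕ) (q : ℕ → ℤ) (e : ℤ) (g : ℕ → ℤ), m ≤ L →
      (∀ j, j ≤ m → |q j| ≤ (b : ℤ) ^ L) → |e| ≤ (b : ℤ) ^ L → (∀ k, |g k| ≤ (b : ℤ) ^ L) →
      HasSum (fun k : ℕ => (g k : ℝ) / (b : ℝ) ^ k) ((u * x + v) / w) →
      ∑ j ∈ range (m + 1), q j * (b : ℤ) ^ j ≠ 0 →
      ((smallPrimes (Real.log N)
        (b * (((b : ℤ) - 1) * u * ∑ j ∈ range (m + 1), q j * (b : ℤ) ^ j))).card : ℝ) ≤
        c * Real.log N / (Real.log (Real.log N)) ^ 2 →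
      ∀ W : ℕ, 1 ≤ W → ∀ T : Finset ℕ,
      (∀ k, W < k → k ≤ N * W → ∑ j ∈ range (m + 1), q j * g (k + j) ≠ e →
        ∃ t ∈ T, t ≤ k ∧ k < t + W) →
      c * (Real.log N) ^ 3 / (Real.log (Real.log N)) ^ 5 ≤ (T.card : ℝ) := by
  obtain ⟨c, hc, N1, hmain⟩ := main_algV x halg hirr
  obtain ⟨c', hc', N2, hN2⟩ := absorbJ 3 c hc
  obtain ⟨N3, hN3⟩ := eventually_atTop.1
    ((Real.tendsto_log_atTop.comp (tendsto_natCast_atTop_atTop (R := ℝ))).eventually_ge_atTop 3)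
  refine ⟨min c c', lt_min hc hc', max (max N1 N2) N3,
    fun N hN b hb L hL u v w hu0 hu hw0 hw m q e g hm hq he hg hsum hQ hfew W hW T hT => ?_⟩
  have hN1' : N1 ≤ N := le_trans (le_trans (le_max_left _ _) (le_max_left _ _)) hN
  have hN2' : N2 ≤ N := le_trans (le_trans (le_max_right _ _) (le_max_left _ _)) hN
  have hN3' : (3 : ℝ) ≤ Real.log N := hN3 N (le_trans (le_max_right _ _) hN)
  have hlam0 : 0 < Real.log (Real.log N) := Real.log_pos (by linarith)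
  have hb1 : (2 : ℝ) ≤ b := by exact_mod_cast hb
  have hbZ : (2 : ℤ) ≤ b := by exact_mod_cast hb
  have hb0 : (0 : ℝ) < b := by linarith
  have hb10 : (0 : ℝ) ≤ (b : ℝ) - 1 := by linarith
  obtain ⟨QQ, hQQ⟩ : ∃ QQ : ℤ, QQ = ∑ j ∈ range (m + 1), q j * (b : ℤ) ^ j := ⟨_, rfl⟩
  rw [← hQQ] at hQ hfew
  obtain ⟨k0, hk0⟩ : ∃ k0 : ℤ, k0 = ((b : ℤ) - 1) * u * QQ := ⟨_, rfl⟩
  have hk00 : k0 ≠ 0 := by
    rw [hk0]
    exact mul_ne_zero (mul_ne_zero (by omega) hu0) hQ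
  rw [← hk0] at hfew
  have hm1 : (m : ℤ) + 1 ≤ (b : ℤ) ^ m := by
    have h1 : m + 1 ≤ 2 ^ m := Nat.lt_two_pow_self
    have h2 : ((m : ℤ) + 1) ≤ 2 ^ m := by exact_mod_cast h1
    exact h2.trans (pow_le_pow_left₀ (by norm_num) hbZ m)
  have hbm : (b : ℤ) ^ m ≤ (b : ℤ) ^ L := pow_le_pow_right₀ (by omega) hm
  have hb1Z : (1 : ℤ) ≤ b := by omega
  have hbLZ : (0 : ℤ) < (b : ℤ) ^ L := by positivity
  have hQQb : |QQ| ≤ (b : ℤ) ^ (3 * L) := by
    rw [hQQ]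
    calc |∑ j ∈ range (m + 1), q j * (b : ℤ) ^ j| ≤ ∑ j ∈ range (m + 1), |q j * (b : ℤ) ^ j| :=
          Finset.abs_sum_le_sum_abs _ _
      _ ≤ ∑ j ∈ range (m + 1), (b : ℤ) ^ L * (b : ℤ) ^ L := by
          apply Finset.sum_le_sum
          intro j hj
          rw [Finset.mem_range] at hj
          rw [abs_mul, abs_of_nonneg (by positivity : (0 : ℤ) ≤ (b : ℤ) ^ j)]
          apply mul_le_mul (hq j (by omega)) (pow_le_pow_right₀ hb1Z (by omega)) (by positivity)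
            hbLZ.le
      _ = ((m : ℤ) + 1) * ((b : ℤ) ^ L * (b : ℤ) ^ L) := by
          rw [Finset.sum_const, Finset.card_range, nsmul_eq_mul]; push_cast; ring
      _ ≤ (b : ℤ) ^ L * ((b : ℤ) ^ L * (b : ℤ) ^ L) := by
          apply mul_le_mul_of_nonneg_right (hm1.trans hbm) (by positivity)
      _ = (b : ℤ) ^ (3 * L) := by rw [← pow_add, ← pow_add]; congr 1; ring
  have hk0b : |k0| ≤ (b : ℤ) ^ (4 * L + 2) := by
    rw [hk0, abs_mul, abs_mul, abs_of_nonneg (by omega : (0 : ℤ) ≤ (b : ℤ) - 1)]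
    have hbb : ((b : ℤ) - 1) ≤ (b : ℤ) ^ 2 := by nlinarith
    calc ((b : ℤ) - 1) * |u| * |QQ| ≤ (b : ℤ) ^ 2 * (b : ℤ) ^ L * (b : ℤ) ^ (3 * L) := by
          apply mul_le_mul _ hQQb (abs_nonneg _) (by positivity)
          exact mul_le_mul hbb hu (abs_nonneg _) (by positivity)
      _ = _ := by rw [← pow_add, ← pow_add]; congr 1; ring
  -- the expansion
  have hE := exps_of_sum (n := 1) b hb (fun _ => (u * x + v) / w) (fun _ => g) ((b : ℤ) ^ L)
    (fun _ => hg) (fun _ => hsum)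
  set W0 : ℕ → ℤ := fun n => ∑ k ∈ range (n + 1), g k * (b : ℤ) ^ (n - k) with hW0
  have hW0s : ∀ k, W0 (k + 1) = b * W0 k + g (k + 1) := fun k => hE.step 0 k
  have hW0a : ∀ k, |(W0 k : ℝ) - (b : ℝ) ^ k * ((u * x + v) / w)| ≤ (b : ℝ) ^ L := by
    intro k
    have := hE.app 0 k
    push_cast at this ⊢
    exact this
  set Wr : ℕ → ℤ := fun n => w * W0 n - (b : ℤ) ^ n * v with hWr
  have hWs : ∀ k, Wr (k + 1) = b * Wr k + w * g (k + 1) := by
    intro k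
    simp only [hWr]
    rw [hW0s k, pow_succ]
    ring
  have hwR : (w : ℝ) ≠ 0 := by exact_mod_cast hw0
  have hwL : |(w : ℝ)| ≤ (b : ℝ) ^ L := by exact_mod_cast hw
  have hWa : ∀ k, |(Wr k : ℝ) - (b : ℝ) ^ k * (u * x)| ≤ (b : ℝ) ^ (2 * L) := by
    intro k
    have e1 : (Wr k : ℝ) - (b : ℝ) ^ k * (u * x) =
        w * ((W0 k : ℝ) - (b : ℝ) ^ k * ((u * x + v) / w)) := by
      simp only [hWr]
      push_cast
      field_simp
      ring
    rw [e1, abs_mul]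
    calc |(w : ℝ)| * |(W0 k : ℝ) - (b : ℝ) ^ k * ((u * x + v) / w)| ≤ (b : ℝ) ^ L * (b : ℝ) ^ L :=
          mul_le_mul hwL (hW0a k) (abs_nonneg _) (by positivity)
      _ = _ := by rw [← pow_add]; congr 1; ring
  set Y : ℕ → ℤ := fun k => ((b : ℤ) - 1) * ∑ j ∈ range (m + 1), q j * Wr (k + j) + w * e with hY
  have hYs : ∀ k, Y (k + 1) - b * Y k =
      ((b : ℤ) - 1) * w * (∑ j ∈ range (m + 1), q j * g (k + 1 + j) - e) := by
    intro k
    have h1 : ∑ j ∈ range (m + 1), q j * Wr (k + 1 + j) =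
        b * ∑ j ∈ range (m + 1), q j * Wr (k + j) +
          w * ∑ j ∈ range (m + 1), q j * g (k + 1 + j) := by
      rw [Finset.mul_sum, Finset.mul_sum, ← Finset.sum_add_distrib]
      apply Finset.sum_congr rfl
      intro j _
      have e1 : k + 1 + j = k + j + 1 := by ring
      rw [e1, hWs (k + j)]
      ring
    simp only [hY]
    rw [h1]
    ring
  set M : ℝ := ((b : ℝ) - 1) * ∑ j ∈ range (m + 1), |(q j : ℝ)| * (b : ℝ) ^ (2 * L) +
    |(w : ℝ) * (e : ℝ)| with hM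
  have hM0 : 0 ≤ M := by
    rw [hM]
    have : 0 ≤ ∑ j ∈ range (m + 1), |(q j : ℝ)| * (b : ℝ) ^ (2 * L) :=
      Finset.sum_nonneg (fun j _ => by positivity)
    positivity
  have hML : M ≤ (b : ℝ) ^ (4 * L + 2) := by
    have h1 : ∑ j ∈ range (m + 1), |(q j : ℝ)| * (b : ℝ) ^ (2 * L) ≤ (b : ℝ) ^ (4 * L) := by
      calc ∑ j ∈ range (m + 1), |(q j : ℝ)| * (b : ℝ) ^ (2 * L)
          ≤ ∑ j ∈ range (m + 1), (b : ℝ) ^ L * (b : ℝ) ^ (2 * L) := by
            apply Finset.sum_le_sum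
            intro j hj
            rw [Finset.mem_range] at hj
            apply mul_le_mul_of_nonneg_right _ (by positivity)
            have := hq j (by omega)
            exact_mod_cast this
        _ = ((m : ℝ) + 1) * ((b : ℝ) ^ L * (b : ℝ) ^ (2 * L)) := by
            rw [Finset.sum_const, Finset.card_range, nsmul_eq_mul]; push_cast; ring
        _ ≤ (b : ℝ) ^ L * ((b : ℝ) ^ L * (b : ℝ) ^ (2 * L)) := by
            apply mul_le_mul_of_nonneg_right _ (by positivity)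
            have := hm1.trans hbm
            exact_mod_cast this
        _ = (b : ℝ) ^ (4 * L) := by rw [← pow_add, ← pow_add]; congr 1; ring
    have h2 : |(w : ℝ) * (e : ℝ)| ≤ (b : ℝ) ^ (2 * L) := by
      have h5 : |(e : ℝ)| ≤ (b : ℝ) ^ L := by exact_mod_cast he
      rw [abs_mul]
      calc |(w : ℝ)| * |(e : ℝ)| ≤ (b : ℝ) ^ L * (b : ℝ) ^ L :=
            mul_le_mul hwL h5 (abs_nonneg _) (by positivity)
        _ = _ := by rw [← pow_add]; congr 1; ring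
    have h3 : (b : ℝ) ^ (2 * L) ≤ (b : ℝ) ^ (4 * L) := pow_le_pow_right₀ (by linarith) (by omega)
    have h4 : 0 ≤ (b : ℝ) ^ (4 * L) := by positivity
    calc M ≤ ((b : ℝ) - 1) * (b : ℝ) ^ (4 * L) + (b : ℝ) ^ (4 * L) := by
          rw [hM]
          exact add_le_add (mul_le_mul_of_nonneg_left h1 hb10) (h2.trans h3)
      _ = (b : ℝ) * (b : ℝ) ^ (4 * L) := by ring
      _ ≤ (b : ℝ) ^ 2 * (b : ℝ) ^ (4 * L) := by
          apply mul_le_mul_of_nonneg_right _ h4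
          nlinarith
      _ = _ := by rw [← pow_add]; congr 1; ring
  have hYa : ∀ k, |(Y k : ℝ) - (b : ℝ) ^ k * ((k0 : ℝ) * x)| ≤ M := by
    intro k
    have e1 : (Y k : ℝ) - (b : ℝ) ^ k * ((k0 : ℝ) * x) =
        ((b : ℝ) - 1) * ∑ j ∈ range (m + 1), (q j : ℝ) *
          ((Wr (k + j) : ℝ) - (b : ℝ) ^ (k + j) * (u * x)) + w * e := by
      have e2 : ∑ j ∈ range (m + 1), (q j : ℝ) *
          ((Wr (k + j) : ℝ) - (b : ℝ) ^ (k + j) * (u * x)) =
          ∑ j ∈ range (m + 1), (q j : ℝ) * (Wr (k + j) : ℝ) -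
            (b : ℝ) ^ k * ((QQ : ℝ) * (u * x)) := by
        rw [hQQ]
        push_cast
        rw [Finset.sum_mul, Finset.mul_sum, ← Finset.sum_sub_distrib]
        apply Finset.sum_congr rfl
        intro j _
        rw [pow_add]; ring
      rw [e2, hk0]
      simp only [hY]
      push_cast
      ring
    rw [e1]
    refine (abs_add_le _ _).trans ?_
    rw [hM]
    apply add_le_add _ le_rfl
    rw [abs_mul, abs_of_nonneg hb10]
    apply mul_le_mul_of_nonneg_left _ hb10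
    refine (Finset.abs_sum_le_sum_abs _ _).trans ?_
    apply Finset.sum_le_sum
    intro j _
    rw [abs_mul]
    exact mul_le_mul_of_nonneg_left (hWa (k + j)) (abs_nonneg _)
  have hL' : ((4 * L + 2 : ℕ) : ℝ) ≤ 5 * Real.log N := by push_cast; linarith
  have hfew' : ((smallPrimes (Real.log N) (b * k0)).card : ℝ) ≤
      c * Real.log N / (Real.log (Real.log N)) ^ 2 := by
    refine hfew.trans ?_
    apply div_le_div_of_nonneg_right _ (by positivity)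
    exact mul_le_mul_of_nonneg_right (min_le_left _ _) (by linarith)
  have h1 := hmain N hN1' b hb k0 hk00 (4 * L + 2) hL' hk0b M hM0 hML hfew' W hW Y hYa
  have hsub := hit_mono (fun k => ∃ i, k = i + 1 ∧ Y (i + 1) ≠ b * Y i)
    (fun k : ℕ => ∑ j ∈ range (m + 1), q j * g (k + j) ≠ e) (by
      rintro k hk ⟨i, rfl, hi⟩ h0
      apply hi
      have h1 := hYs i
      rw [h0, sub_self, mul_zero] at h1
      linarith) W N
  have h2 := (Finset.card_le_card hsub).trans (hit_cover _ W N hW T hT)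
  have h3 := hN2 N hN2' (T.card : ℝ) (Nat.cast_nonneg _) (h1.trans (by exact_mod_cast h2))
  refine le_trans ?_ h3
  apply div_le_div_of_nonneg_right _ (by positivity)
  exact mul_le_mul_of_nonneg_right (min_le_right _ _) (by positivity)

end Pool.Agent.H52.CV
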